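import Pool.Agent.helper55.VQ.SpecD

/-!
# Row vq:EDT (MP_07c750): transport of the coefficients along the flow
-/

set_option autoImplicit false

open scoped MatrixGroups ContDiff Topology UpperHalfPlane ComplexConjugate ENNReal
open UpperHalfPlane MeasureTheory Filter Set

namespace Pool.Agent.VQ

open Pool.Agent.RS
open Pool.Agent.RPQ (CEig mean VV IsOp)

/-- Cauchy-Schwarz -/
theorem EDT_cs {Y : Type*} [MeasurableSpace Y] (ν : Measure Y) (f : Y → ENNReal) (hf : AEMeasurable f ν) :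
    (∫⁻ y, f y ∂ν) ^ 2 ≤ ν univ * ∫⁻ y, f y ^ 2 ∂ν := by
  have h := ENNReal.lintegral_mul_le_Lp_mul_Lq ν (Real.HolderConjugate.two_two) (f := fun _ => 1) (g := f) aemeasurable_const hf
  simp only [Pi.mul_apply, one_mul, ENNReal.one_rpow, lintegral_const] at h
  have h2 := pow_le_pow_left₀ zero_le h 2
  refine h2.trans (le_of_eq ?_)
  rw [mul_pow, ← ENNReal.rpow_natCast, ← ENNReal.rpow_natCast, ← ENNReal.rpow_mul, ← ENNReal.rpow_mul]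
  norm_num

/-- the mean value inequality in `L²` -/
theorem EDT_mv {X : Type*} [MeasurableSpace X] [TopologicalSpace X] (μ : Measure X) [SFinite μ] (S : Set X) (W : ℝ → X → ENNReal) (Y Y' : ℝ → X → ℂ) (t B : ℝ) (ht : 0 ≤ t) (hS : MeasurableSet S)
    (hd : ∀ x ∈ S, ∀ s ∈ Icc 0 t, HasDerivAt (fun s => Y s x) (Y' s x) s) (hc : ∀ x ∈ S, ContinuousOn (fun s => Y' s x) (Icc 0 t))
    (hW : ∀ x ∈ S, ∀ s ∈ Icc 0 t, ‖Y' s x‖ₑ ^ 2 = W s x)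
    (hm : AEMeasurable (fun x : X × ℝ => W x.2 x.1) ((μ.restrict S).prod (volume.restrict (Icc 0 t))))
    (hB : ∀ s ∈ Icc 0 t, ∫⁻ x in S, W s x ∂μ ≤ ENNReal.ofReal B) :
    ∫⁻ x in S, ‖Y t x - Y 0 x‖ₑ ^ 2 ∂μ ≤ ENNReal.ofReal (t ^ 2) * ENNReal.ofReal B := by
  have h1 : ∀ x ∈ S, ‖Y t x - Y 0 x‖ₑ ^ 2 ≤ ENNReal.ofReal t * ∫⁻ s in Icc (0 : ℝ) t, W s x := by
    intro x hx
    have hci : ContinuousOn (fun s => Y' s x) (uIcc 0 t) := by rw [uIcc_of_le ht]; exact hc x hx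
    have e1 : ∫ s in (0 : ℝ)..t, Y' s x = Y t x - Y 0 x := by
      refine intervalIntegral.integral_eq_sub_of_hasDerivAt (f := fun s => Y s x) (fun s hs => hd x hx s ?_) hci.intervalIntegrable
      rwa [uIcc_of_le ht] at hs
    have hm1 : AEMeasurable (fun s => ‖Y' s x‖ₑ) (volume.restrict (Icc 0 t)) :=
      ((hc x hx).aestronglyMeasurable measurableSet_Icc).enorm
    have e2 : ‖Y t x - Y 0 x‖ₑ ≤ ∫⁻ s in Icc (0 : ℝ) t, ‖Y' s x‖ₑ := by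
      rw [← e1, intervalIntegral.integral_of_le ht, ← integral_Icc_eq_integral_Ioc]
      exact enorm_integral_le_lintegral_enorm _
    calc ‖Y t x - Y 0 x‖ₑ ^ 2 ≤ (∫⁻ s in Icc (0 : ℝ) t, ‖Y' s x‖ₑ) ^ 2 := pow_le_pow_left₀ zero_le e2 2
      _ ≤ (volume.restrict (Icc 0 t)) univ * ∫⁻ s in Icc (0 : ℝ) t, ‖Y' s x‖ₑ ^ 2 := EDT_cs _ _ hm1
      _ = ENNReal.ofReal t * ∫⁻ s in Icc (0 : ℝ) t, W s x := by
        rw [Measure.restrict_apply_univ, Real.volume_Icc, sub_zero]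
        congr 1
        exact setLIntegral_congr_fun measurableSet_Icc fun s hs => hW x hx s hs
  calc ∫⁻ x in S, ‖Y t x - Y 0 x‖ₑ ^ 2 ∂μ ≤ ∫⁻ x in S, ENNReal.ofReal t * (∫⁻ s in Icc (0 : ℝ) t, W s x) ∂μ :=
        setLIntegral_mono' hS h1
    _ = ENNReal.ofReal t * ∫⁻ x in S, (∫⁻ s in Icc (0 : ℝ) t, W s x) ∂μ := lintegral_const_mul' _ _ ENNReal.ofReal_ne_top
    _ = ENNReal.ofReal t * ∫⁻ s in Icc (0 : ℝ) t, ∫⁻ x in S, W s x ∂μ := by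
        congr 1
        exact lintegral_lintegral_swap (f := fun x s => W s x) hm
    _ ≤ ENNReal.ofReal t * ∫⁻ s in Icc (0 : ℝ) t, ENNReal.ofReal B := by
        refine mul_le_mul' le_rfl ?_
        exact setLIntegral_mono' measurableSet_Icc hB
    _ = ENNReal.ofReal (t ^ 2) * ENNReal.ofReal B := by
        rw [setLIntegral_const, Real.volume_Icc, sub_zero, sq, ENNReal.ofReal_mul ht]
        ring

/-- the window -/
theorem EDT_set (Γ : Subgroup SL(2, ℝ)) (F : Set ℍ) (R : ℝ) (hΓ : QU.SurfaceGroup Γ) (hF : QU.NiceDom Γ F) :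
    MeasurableSet (PW F 2 R) ∧ mP (PW F 2 R) < ⊤ ∧ ∃ K : Set (SL(2, ℝ) × ℝ), IsCompact K ∧ PW F 2 R ⊆ K ∧ K ⊆ GW 2 R := by
  obtain ⟨⟨h1, -, h2, K, hK, hK2⟩, -⟩ := A_GFD Γ F hΓ hF
  refine ⟨h1.prod measurableSet_Icc, ?_, K ×ˢ Wi 2 R, hK.prod isCompact_Icc, prod_mono hK2 subset_rfl, prod_mono (subset_univ _) subset_rfl⟩
  unfold mP PW
  rw [Measure.prod_prod]
  exact ENNReal.mul_lt_top h2 isCompact_Icc.measure_lt_top

/-- measurability on the window -/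
theorem EDT_ms (Γ : Subgroup SL(2, ℝ)) (F : Set ℍ) (R : ℝ) (hΓ : QU.SurfaceGroup Γ) (hF : QU.NiceDom Γ F) (x : SL(2, ℝ) × ℝ → ℂ)
    (hx : ContinuousOn x (GW 2 R)) : AEStronglyMeasurable x (mP.restrict (PW F 2 R)) := by
  have : SecondCountableTopology SL(2, ℝ) := A_GLC.2.1
  exact (hx.mono (prod_mono (subset_univ _) subset_rfl)).aestronglyMeasurable (EDT_set Γ F R hΓ hF).1

/-- integrability on the window -/
theorem EDT_int (Γ : Subgroup SL(2, ℝ)) (F : Set ℍ) (R : ℝ) (hΓ : QU.SurfaceGroup Γ) (hF : QU.NiceDom Γ F) (x : SL(2, ℝ) × ℝ → ℂ)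
    (hx : ContinuousOn x (GW 2 R)) : Integrable (fun p => ‖x p‖ ^ 2) (mP.restrict (PW F 2 R)) := by
  obtain ⟨h1, h2, K, hK, hK1, hK2⟩ := EDT_set Γ F R hΓ hF
  obtain ⟨m, hm⟩ := hK.exists_bound_of_continuousOn (hx.mono hK2)
  have : IsFiniteMeasure (mP.restrict (PW F 2 R)) := ⟨by rwa [Measure.restrict_apply_univ]⟩
  refine Integrable.of_bound ((EDT_ms Γ F R hΓ hF x hx).norm.pow 2) (m ^ 2) ?_
  refine (ae_restrict_iff' h1).2 (Eventually.of_forall fun p hp => ?_)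
  rw [Real.norm_of_nonneg (by positivity)]
  exact pow_le_pow_left₀ (norm_nonneg _) (hm p (hK1 hp)) 2

/-- the norm as a lower integral -/
theorem EDT_ln (Γ : Subgroup SL(2, ℝ)) (F : Set ℍ) (R : ℝ) (hΓ : QU.SurfaceGroup Γ) (hF : QU.NiceDom Γ F) (x : SL(2, ℝ) × ℝ → ℂ)
    (hx : ContinuousOn x (GW 2 R)) : ∫⁻ p in PW F 2 R, ‖x p‖ₑ ^ 2 ∂mP = ENNReal.ofReal (nP F 2 R x) := by
  unfold nP
  rw [ofReal_integral_eq_lintegral_ofReal (EDT_int Γ F R hΓ hF x hx) (Eventually.of_forall fun p => by positivity)]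
  congr 1
  funext p
  rw [ENNReal.ofReal_pow (norm_nonneg _), ofReal_norm]

/-- the same for bounded measurable functions -/
theorem EDT_ln2 (Γ : Subgroup SL(2, ℝ)) (F : Set ℍ) (R : ℝ) (hΓ : QU.SurfaceGroup Γ) (hF : QU.NiceDom Γ F) (x : SL(2, ℝ) × ℝ → ℂ)
    (hx : Measurable x) (hb : ∃ b : ℝ, ∀ p, ‖x p‖ ≤ b) : ∫⁻ p in PW F 2 R, ‖x p‖ₑ ^ 2 ∂mP = ENNReal.ofReal (nP F 2 R x) := by
  obtain ⟨m, hm⟩ := hb
  have h2 := (EDT_set Γ F R hΓ hF).2.1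
  have : IsFiniteMeasure (mP.restrict (PW F 2 R)) := ⟨by rwa [Measure.restrict_apply_univ]⟩
  have hi : Integrable (fun p => ‖x p‖ ^ 2) (mP.restrict (PW F 2 R)) := by
    refine Integrable.of_bound (hx.norm.pow_const 2).aestronglyMeasurable (m ^ 2) (Eventually.of_forall fun p => ?_)
    rw [Real.norm_of_nonneg (by positivity)]
    exact pow_le_pow_left₀ (norm_nonneg _) (hm p) 2
  unfold nP
  rw [ofReal_integral_eq_lintegral_ofReal hi (Eventually.of_forall fun p => by positivity)]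
  congr 1
  funext p
  rw [ENNReal.ofReal_pow (norm_nonneg _), ofReal_norm]

/-- bounds of the norm from bounds of the lower integral -/
theorem EDT_le (F : Set ℍ) (R b : ℝ) (x : SL(2, ℝ) × ℝ → ℂ) (hb : 0 ≤ b) (h : ∫⁻ p in PW F 2 R, ‖x p‖ₑ ^ 2 ∂mP ≤ ENNReal.ofReal b) :
    nP F 2 R x ≤ b := by
  unfold nP
  by_cases hi : Integrable (fun p => ‖x p‖ ^ 2) (mP.restrict (PW F 2 R))
  · have h1 := ofReal_integral_eq_lintegral_ofReal hi (Eventually.of_forall fun p => by positivity)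
    have h2 : ∫⁻ p in PW F 2 R, ENNReal.ofReal (‖x p‖ ^ 2) ∂mP = ∫⁻ p in PW F 2 R, ‖x p‖ₑ ^ 2 ∂mP := by
      congr 1
      funext p
      rw [ENNReal.ofReal_pow (norm_nonneg _), ofReal_norm]
    rw [h2] at h1
    rw [← h1] at h
    exact (ENNReal.ofReal_le_ofReal_iff hb).1 h
  · rw [integral_undef hi]
    exact hb

/-- sums of two -/
theorem EDT_s2 {X : Type*} [MeasurableSpace X] (μ : Measure X) (x y z : X → ℂ) (a b : ℝ) (hy : AEStronglyMeasurable y μ) (ha : 0 ≤ a) (hb : 0 ≤ b)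
    (hz : ∀ᵐ p ∂μ, ‖z p‖ ≤ ‖x p‖ + ‖y p‖) (h1 : ∫⁻ p, ‖x p‖ₑ ^ 2 ∂μ ≤ ENNReal.ofReal a) (h2 : ∫⁻ p, ‖y p‖ₑ ^ 2 ∂μ ≤ ENNReal.ofReal b) :
    ∫⁻ p, ‖z p‖ₑ ^ 2 ∂μ ≤ ENNReal.ofReal (2 * a + 2 * b) := by
  calc ∫⁻ p, ‖z p‖ₑ ^ 2 ∂μ ≤ ∫⁻ p, (2 * ‖x p‖ₑ ^ 2 + 2 * ‖y p‖ₑ ^ 2) ∂μ := by
        refine lintegral_mono_ae ?_
        filter_upwards [hz] with p hp
        rw [← ofReal_norm, ← ofReal_norm, ← ofReal_norm, ← ENNReal.ofReal_pow (norm_nonneg _),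
          ← ENNReal.ofReal_pow (norm_nonneg _), ← ENNReal.ofReal_pow (norm_nonneg _), ← ENNReal.ofReal_ofNat 2,
          ← ENNReal.ofReal_mul (by norm_num), ← ENNReal.ofReal_mul (by norm_num), ← ENNReal.ofReal_add (by positivity) (by positivity)]
        apply ENNReal.ofReal_le_ofReal
        have h3 := pow_le_pow_left₀ (norm_nonneg _) hp 2
        nlinarith [sq_nonneg (‖x p‖ - ‖y p‖)]
    _ = 2 * (∫⁻ p, ‖x p‖ₑ ^ 2 ∂μ) + 2 * ∫⁻ p, ‖y p‖ₑ ^ 2 ∂μ := by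
        rw [lintegral_add_right' _ ((hy.enorm.pow_const 2).const_mul 2), lintegral_const_mul' _ _ (by norm_num), lintegral_const_mul' _ _ (by norm_num)]
    _ ≤ 2 * ENNReal.ofReal a + 2 * ENNReal.ofReal b := add_le_add (mul_le_mul' le_rfl h1) (mul_le_mul' le_rfl h2)
    _ = ENNReal.ofReal (2 * a + 2 * b) := by
        rw [ENNReal.ofReal_add (by positivity) (by positivity), ENNReal.ofReal_mul (by norm_num), ENNReal.ofReal_mul (by norm_num), ENNReal.ofReal_ofNat]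

/-- the packets of the family are continuous with compact support -/
def EDT_RF (D : Dyn) (R t : ℝ) (f : SL(2, ℝ) × ℝ → ℂ → ℂ) : Prop := ∀ p ∈ GW 2 R, Continuous (pF D t f p) ∧ HasCompactSupport (pF D t f p)

theorem EDT_rf (hVFR : VFR_stmt) (Γ : Subgroup SL(2, ℝ)) (F : Set ℍ) (δ : ℝ) (B : ℕ → ℝ) (D : Dyn) (K : ℕ) (η m R t : ℝ)
    (f : SL(2, ℝ) × ℝ → ℂ → ℂ) (hDm : Dm Γ F) (hD : OKD Γ δ B D) (hδ : δ ≤ 1 / 10) (hη : 0 < η) (hη1 : η ≤ 1 / 4) (hm : 0 ≤ m)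
    (hR1 : R ^ (-(1 / 2) + η) ≤ 1 / 4) (hR2 : 2 * R ^ (-(1 / 4) : ℝ) ≤ 1 / 8) (hR : 1 ≤ R) (hf : Fa Γ D K η m R t f) : EDT_RF D R t f := by
  obtain ⟨h1, h2, -⟩ := hVFR Γ F δ B D K η m R t f hDm hD hδ hη hη1 hm hR1 hR2 hR hf
  intro p hp
  have hp2 : |p.2| ≤ 1 / 8 := by
    have := hp.2
    exact (abs_le.2 ⟨this.1, this.2⟩).trans hR2
  constructor
  · exact h1.comp_continuous (f := fun z : ℍ => (p, z)) (by fun_prop) (fun z => hp2)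
  · refine HasCompactSupport.intro (isCompact_closedBall (D.fl p.2 t p.1 • I : ℍ) 1) fun z hz => ?_
    by_contra h
    apply hz
    rw [Metric.mem_closedBall, dist_comm]
    exact ((h2 p hp z).2 h).1

theorem EDT_ig (D : Dyn) (R t : ℝ) (f : SL(2, ℝ) × ℝ → ℂ → ℂ) (hf : EDT_RF D R t f) (p : SL(2, ℝ) × ℝ) (hp : p ∈ GW 2 R) (u : ℍ → ℂ)
    (hu : Continuous u) : Integrable (fun z : ℍ => u z * conj (pF D t f p z)) := by
  obtain ⟨h1, h2⟩ := hf p hp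
  have h3 : HasCompactSupport (fun z => conj (pF D t f p z)) := h2.comp_left (g := fun w : ℂ => conj w) (map_zero _)
  exact (hu.mul (Complex.continuous_conj.comp h1)).integrable_of_hasCompactSupport h3.mul_left

theorem EDT_add (D : Dyn) (R t : ℝ) (f : SL(2, ℝ) × ℝ → ℂ → ℂ) (hf : EDT_RF D R t f) (u v w : ℍ → ℂ) (hu : Continuous u) (hv : Continuous v)
    (hw : ∀ z, w z = u z + v z) (p : SL(2, ℝ) × ℝ) : aF D R t f w p = aF D R t f u p + aF D R t f v p := by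
  unfold aF
  by_cases hp : p ∈ GW 2 R
  · rw [indicator_of_mem hp, indicator_of_mem hp, indicator_of_mem hp, ← integral_add (EDT_ig D R t f hf p hp u hu) (EDT_ig D R t f hf p hp v hv)]
    congr 1
    funext z
    rw [hw z]
    ring
  · rw [indicator_of_notMem hp, indicator_of_notMem hp, indicator_of_notMem hp, add_zero]

theorem EDT_sub (D : Dyn) (R t : ℝ) (f f' : SL(2, ℝ) × ℝ → ℂ → ℂ) (hf : EDT_RF D R t f) (hf' : EDT_RF D R t f') (u : ℍ → ℂ) (hu : Continuous u)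
    (p : SL(2, ℝ) × ℝ) : aF D R t (fun p v => f p v - f' p v) u p = aF D R t f u p - aF D R t f' u p := by
  unfold aF
  by_cases hp : p ∈ GW 2 R
  · rw [indicator_of_mem hp, indicator_of_mem hp, indicator_of_mem hp, ← integral_sub (EDT_ig D R t f hf p hp u hu) (EDT_ig D R t f' hf' p hp u hu)]
    congr 1
    funext z
    unfold pF
    rw [map_sub]
    ring
  · rw [indicator_of_notMem hp, indicator_of_notMem hp, indicator_of_notMem hp, sub_zero]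

/-- derivative of the phase -/
theorem EDT_thd (Γ : Subgroup SL(2, ℝ)) (δ : ℝ) (B : ℕ → ℝ) (D : Dyn) (hD : OKD Γ δ B D) (f : ℍ → ℝ) (R : ℝ) (hf : Continuous fun z => D.U z * f z)
    (p : SL(2, ℝ) × ℝ) (hp : |p.2| ≤ 1 / 8) (s : ℝ) :
    HasDerivAt (fun s => thP D f R s p) (R / 2 * (D.U (D.fl p.2 s p.1 • I) * f (D.fl p.2 s p.1 • I))) s := by
  have h1 : Continuous fun s : ℝ => D.fl p.2 s p.1 :=
    hD.cfl.comp_continuous (f := fun s : ℝ => ((p.2, s, p.1) : ℝ × ℝ × SL(2, ℝ))) (by fun_prop) (fun z => hp)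
  have hc : Continuous fun s : ℝ => D.U (D.fl p.2 s p.1 • I) * f (D.fl p.2 s p.1 • I) := hf.comp (h1.smul continuous_const)
  exact ((hc.integral_hasStrictDerivAt 0 s).hasDerivAt).const_mul (R / 2)

/-- continuity of functions along the flow -/
theorem EDT_flc (Γ : Subgroup SL(2, ℝ)) (δ : ℝ) (B : ℕ → ℝ) (D : Dyn) (hD : OKD Γ δ B D) (R : ℝ) (hR : 2 * R ^ (-(1 / 4) : ℝ) ≤ 1 / 8) (g : ℍ → ℝ) (hg : Continuous g)
    (T : Set ℝ) : ContinuousOn (fun x : (SL(2, ℝ) × ℝ) × ℝ => g (D.fl x.1.2 x.2 x.1.1 • I)) (GW 2 R ×ˢ T) := by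
  have h1 : ContinuousOn (fun x : (SL(2, ℝ) × ℝ) × ℝ => D.fl x.1.2 x.2 x.1.1) (GW 2 R ×ˢ T) :=
    hD.cfl.comp (f := fun x : (SL(2, ℝ) × ℝ) × ℝ => ((x.1.2, x.2, x.1.1) : ℝ × ℝ × SL(2, ℝ))) (by fun_prop)
      (fun x hx => (abs_le.2 ⟨hx.1.2.1, hx.1.2.2⟩).trans hR)
  exact hg.comp_continuousOn (h1.smul continuousOn_const)

/-- products with invariant functions -/
theorem EDT_fh (Γ : Subgroup SL(2, ℝ)) (F : Set ℍ) (g : ℍ → ℝ) (φ : ℍ → ℂ) (hg : QU.Inv Γ g) (hφ : FH Γ F φ) : FH Γ F (fun z => ((g z : ℝ) : ℂ) * φ z) := by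
  refine ⟨(Complex.continuous_ofReal.comp hg.1).mul hφ.cont, fun γ z => ?_, ?_⟩
  · show ((g (γ • z) : ℝ) : ℂ) * φ (γ • z) = _
    rw [hg.2 γ z, hφ.inv γ z]
  · obtain ⟨b, hb⟩ := hφ.supp
    exact ⟨b, fun z hz h => hb z hz (right_ne_zero_of_mul h)⟩

/-- differences -/
theorem EDT_fs (Γ : Subgroup SL(2, ℝ)) (F : Set ℍ) (u v : ℍ → ℂ) (hu : FH Γ F u) (hv : FH Γ F v) : FH Γ F (fun z => u z - v z) := by
  obtain ⟨b, hb⟩ := hu.supp
  obtain ⟨b', hb'⟩ := hv.supp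
  refine ⟨hu.cont.sub hv.cont, fun γ z => ?_, max b b', fun z hz h => ?_⟩
  · show u (γ • z) - v (γ • z) = _
    rw [hu.inv γ z, hv.inv γ z]
  · by_cases h1 : u z = 0
    · by_cases h2 : v z = 0
      · exact absurd (by rw [h1, h2, sub_zero]) h
      · exact (hb' z hz h2).trans (le_max_right _ _)
    · exact (hb z hz h1).trans (le_max_left _ _)

/-- comparison of the norms on the surface -/
theorem EDT_nn (Γ : Subgroup SL(2, ℝ)) (F : Set ℍ) (hΓ : QU.SurfaceGroup Γ) (hF : QU.NiceDom Γ F) (u φ : ℍ → ℂ) (c : ℝ) (hφ : Continuous φ)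
    (h : ∀ z, ‖u z‖ ≤ c * ‖φ z‖) : nn F u ≤ c ^ 2 * nn F φ := by
  obtain ⟨K, hK, hK2⟩ := hF.rel
  obtain ⟨m, hm⟩ := hK.exists_bound_of_continuousOn hφ.continuousOn
  have hv : volume F < ⊤ := (QU.DOB QU.INV Γ F hΓ hF).2.2.2.1
  have : IsFiniteMeasure ((volume : Measure ℍ).restrict F) := ⟨by rwa [Measure.restrict_apply_univ]⟩
  have hi : Integrable (fun z => ‖φ z‖ ^ 2) ((volume : Measure ℍ).restrict F) := by
    refine Integrable.of_bound (hφ.norm.pow 2).aestronglyMeasurable (m ^ 2) ?_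
    refine (ae_restrict_iff' hF.meas).2 (Eventually.of_forall fun p hp => ?_)
    rw [Real.norm_of_nonneg (by positivity)]
    exact pow_le_pow_left₀ (norm_nonneg _) (hm p (hK2 hp)) 2
  unfold nn
  rw [← integral_const_mul]
  refine integral_mono_of_nonneg (Eventually.of_forall fun z => by positivity) (hi.const_mul _) (Eventually.of_forall fun z => ?_)
  show ‖u z‖ ^ 2 ≤ c ^ 2 * ‖φ z‖ ^ 2
  rw [← mul_pow]
  exact pow_le_pow_left₀ (norm_nonneg _) (h z) 2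

/-- the integrand -/
noncomputable def EDT_V (D : Dyn) (ch : ℝ → ℝ) (A : Prm) (R : ℝ) (f : ℍ → ℝ) (φ : ℍ → ℂ) (s : ℝ) (p : SL(2, ℝ) × ℝ) : ℂ :=
  aF D R s (pv D ch A.z A.z1 R s) (Hop D.U R φ) p + aF D R s (Er D ch A.z A.z1 R s) φ p -
    ((R / 2 * (D.U (D.fl p.2 s p.1 • I) * f (D.fl p.2 s p.1 • I)) : ℝ) : ℂ) * aF D R s (pv D ch A.z A.z1 R s) φ p

/-- the path -/
noncomputable def EDT_Y (D : Dyn) (ch : ℝ → ℝ) (A : Prm) (R : ℝ) (f : ℍ → ℝ) (φ : ℍ → ℂ) (s : ℝ) (p : SL(2, ℝ) × ℝ) : ℂ :=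
  Complex.exp (-(((thP D f R s p : ℝ) : ℂ) * Complex.I)) * aF D R s (pv D ch A.z A.z1 R s) φ p

/-- the derivative of the path -/
noncomputable def EDT_Z (D : Dyn) (ch : ℝ → ℝ) (A : Prm) (R : ℝ) (f : ℍ → ℝ) (φ : ℍ → ℂ) (s : ℝ) (p : SL(2, ℝ) × ℝ) : ℂ :=
  Complex.exp (-(((thP D f R s p : ℝ) : ℂ) * Complex.I)) * (Complex.I * EDT_V D ch A R f φ s p)

theorem EDT_expn (x : ℝ) : ‖Complex.exp (-((x : ℂ) * Complex.I))‖ = 1 := by
  have : -((x : ℂ) * Complex.I) = ((-x : ℝ) : ℂ) * Complex.I := by push_cast; ring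
  rw [this, Complex.norm_exp_ofReal_mul_I]

/-- numbers -/
theorem EDT_num (Q N a b1 b2 b0 t l R : ℝ) (hR : 1 ≤ R) (hN : 0 ≤ N) (hQ : Q = R ^ (-(2 / 101) : ℝ)) (ha : a ≤ 3 * Q * N) (hb1 : b1 ≤ 4 * Q * N) (hb2 : b2 ≤ Q * N) (hb0 : b0 ≤ Q * N)
    (ht : t ^ 2 ≤ l ^ 2) (hl : 52 * l ^ 2 + 2 ≤ R ^ (19 / 6060 : ℝ)) : 2 * (t ^ 2 * (2 * a + 2 * (2 * b1 + 2 * b2))) + 2 * b0 ≤ R ^ (-(1 / 60) : ℝ) * N := by
  have hR0 : 0 < R := by linarith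
  have hQ0 : 0 ≤ Q := by rw [hQ]; exact Real.rpow_nonneg hR0.le _
  have hQN : 0 ≤ Q * N := mul_nonneg hQ0 hN
  have h1 : 2 * a + 2 * (2 * b1 + 2 * b2) ≤ 26 * (Q * N) := by linarith
  have h2 : t ^ 2 * (2 * a + 2 * (2 * b1 + 2 * b2)) ≤ l ^ 2 * (26 * (Q * N)) :=
    (mul_le_mul_of_nonneg_left h1 (sq_nonneg _)).trans (mul_le_mul_of_nonneg_right ht (by positivity))
  calc 2 * (t ^ 2 * (2 * a + 2 * (2 * b1 + 2 * b2))) + 2 * b0 ≤ (52 * l ^ 2 + 2) * (Q * N) := by linarith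
    _ ≤ R ^ (19 / 6060 : ℝ) * (Q * N) := mul_le_mul_of_nonneg_right hl hQN
    _ = R ^ (-(1 / 60) : ℝ) * N := by
      rw [hQ, ← mul_assoc, ← Real.rpow_add hR0]
      norm_num

theorem EDT_n2 (R x : ℝ) (hR : 1 ≤ R) (hx : x ≤ -(1 / 101)) : (R ^ x) ^ 2 ≤ R ^ (-(2 / 101) : ℝ) := by
  have hR0 : 0 < R := by linarith
  rw [← Real.rpow_natCast, ← Real.rpow_mul hR0.le]
  exact Real.rpow_le_rpow_of_exponent_le hR (by push_cast; linarith)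

/-- the core: everything about the path -/
theorem EDT_core (Γ : Subgroup SL(2, ℝ)) (F : Set ℍ) (δ : ℝ) (B : ℕ → ℝ) (D : Dyn) (ch : ℝ → ℝ) (A : Prm) (R : ℝ) (f : ℍ → ℝ) (φ : ℍ → ℂ)
    (χ : ℍ → ℂ) (hΓ : QU.SurfaceGroup Γ) (hF : QU.NiceDom Γ F) (hD : OKD Γ δ B D) (hR2 : 2 * R ^ (-(1 / 4) : ℝ) ≤ 1 / 8)
    (hφ : FH Γ F φ) (hH : FH Γ F (Hop D.U R φ)) (hUf : QU.Inv Γ (fun z => D.U z * f z)) (hg : QU.Inv Γ (fun z => R / 2 * (D.U z * f z)))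
    (hχ : FH Γ F χ) (hχ2 : ∀ z, Hop D.U R φ z = ((R / 2 * (D.U z * f z) : ℝ) : ℂ) * φ z + χ z)
    (hE1 : ∀ p ∈ GW 2 R, ∀ t ∈ Icc 0 (A.sg R), HasDerivAt (fun s => aF D R s (pv D ch A.z A.z1 R s) φ p)
      (Complex.I * aF D R t (pv D ch A.z A.z1 R t) (Hop D.U R φ) p + Complex.I * aF D R t (Er D ch A.z A.z1 R t) φ p) t)
    (hE2 : ∀ u : ℍ → ℂ, FH Γ F u → ContinuousOn (fun x : (SL(2, ℝ) × ℝ) × ℝ => aF D R x.2 (pv D ch A.z A.z1 R x.2) u x.1) (GW 2 R ×ˢ Icc 0 (A.sg R)))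
    (hE3 : ContinuousOn (fun x : (SL(2, ℝ) × ℝ) × ℝ => aF D R x.2 (Er D ch A.z A.z1 R x.2) φ x.1) (GW 2 R ×ˢ Icc 0 (A.sg R)))
    (t a b1 b2 : ℝ) (ht0 : 0 ≤ t) (ht : t ≤ A.sg R) (ha0 : 0 ≤ a) (hb10 : 0 ≤ b1) (hb20 : 0 ≤ b2) (hRF : ∀ s ∈ Icc 0 t, EDT_RF D R s (pv D ch A.z A.z1 R s))
    (ha : ∀ s ∈ Icc 0 t, nP F 2 R (fun p => aF D R s (pv D ch A.z A.z1 R s) (fun z => ((R / 2 * (D.U z * f z) : ℝ) : ℂ) * φ z) p -
      ((R / 2 * (D.U (D.fl p.2 s p.1 • I) * f (D.fl p.2 s p.1 • I)) : ℝ) : ℂ) * aF D R s (pv D ch A.z A.z1 R s) φ p) ≤ a)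
    (hb1 : ∀ s ∈ Icc 0 t, nP F 2 R (aF D R s (pv D ch A.z A.z1 R s) χ) ≤ b1) (hb2 : ∀ s ∈ Icc 0 t, nP F 2 R (aF D R s (Er D ch A.z A.z1 R s) φ) ≤ b2) :
    ∫⁻ p in PW F 2 R, ‖EDT_Y D ch A R f φ t p - EDT_Y D ch A R f φ 0 p‖ₑ ^ 2 ∂mP ≤ ENNReal.ofReal (t ^ 2 * (2 * a + 2 * (2 * b1 + 2 * b2))) := by
  have : SecondCountableTopology SL(2, ℝ) := A_GLC.2.1
  have : SigmaFinite mG := A_GMG.2.2.1
  have hsf : SFinite mP := by unfold mP; infer_instance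
  obtain ⟨hS, -, K, -, hK1, hK2⟩ := EDT_set Γ F R hΓ hF
  have hSG : PW F 2 R ⊆ GW 2 R := hK1.trans hK2
  have hIcc : Icc 0 t ⊆ Icc 0 (A.sg R) := Icc_subset_Icc_right ht
  have hgc := EDT_flc Γ δ B D hD R hR2 (fun z => R / 2 * (D.U z * f z)) hg.1 (Icc 0 (A.sg R))
  have hVc : ContinuousOn (fun x : (SL(2, ℝ) × ℝ) × ℝ => EDT_V D ch A R f φ x.2 x.1) (GW 2 R ×ˢ Icc 0 (A.sg R)) :=
    ((hE2 _ hH).add hE3).sub ((Complex.continuous_ofReal.comp_continuousOn hgc).mul (hE2 _ hφ))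
  have hfix : ∀ s ∈ Icc 0 t, ∀ G : (SL(2, ℝ) × ℝ) × ℝ → ℂ, ContinuousOn G (GW 2 R ×ˢ Icc 0 (A.sg R)) → ContinuousOn (fun p => G (p, s)) (GW 2 R) := by
    intro s hs G hG
    exact hG.comp (f := fun p : SL(2, ℝ) × ℝ => (p, s)) (by fun_prop) (fun p hp => ⟨hp, hIcc hs⟩)
  have hp8 : ∀ p ∈ GW 2 R, |p.2| ≤ 1 / 8 := fun p hp => (abs_le.2 ⟨hp.2.1, hp.2.2⟩).trans hR2
  rw [ENNReal.ofReal_mul (sq_nonneg t)]
  refine EDT_mv mP (PW F 2 R) (fun s p => ‖EDT_V D ch A R f φ s p‖ₑ ^ 2) (EDT_Y D ch A R f φ) (EDT_Z D ch A R f φ) t _ ht0 hS ?_ ?_ ?_ ?_ ?_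
  · intro p hp s hs
    have h1 := (((EDT_thd Γ δ B D hD f R hUf.1 p (hp8 p (hSG hp)) s).ofReal_comp).mul_const Complex.I).neg.cexp
    have h2 := hE1 p (hSG hp) s (hIcc hs)
    refine (h1.mul h2).congr_deriv ?_
    unfold EDT_Z EDT_V
    simp only [Pi.neg_apply]
    ring
  · intro p hp
    have h1 : Continuous fun s => thP D f R s p :=
      continuous_iff_continuousAt.2 fun s => (EDT_thd Γ δ B D hD f R hUf.1 p (hp8 p (hSG hp)) s).continuousAt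
    have h2 : ContinuousOn (fun s => EDT_V D ch A R f φ s p) (Icc 0 t) :=
      hVc.comp (f := fun s : ℝ => (p, s)) (by fun_prop) (fun s hs => ⟨hSG hp, hIcc hs⟩)
    unfold EDT_Z
    exact (Continuous.continuousOn (by fun_prop)).mul (continuousOn_const.mul h2)
  · intro p hp s hs
    unfold EDT_Z
    rw [← ofReal_norm, ← ofReal_norm, norm_mul, norm_mul, EDT_expn, Complex.norm_I, one_mul, one_mul]
  · rw [Measure.prod_restrict]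
    exact ((hVc.mono (prod_mono hSG hIcc)).aestronglyMeasurable (hS.prod measurableSet_Icc)).enorm.pow_const 2
  · intro s hs
    have k1 := hfix s hs _ ((hE2 _ (EDT_fh Γ F _ φ hg hφ)).sub ((Complex.continuous_ofReal.comp_continuousOn hgc).mul (hE2 _ hφ)))
    have k2 := hfix s hs _ (hE2 _ hχ)
    have k3 := hfix s hs _ hE3
    have l1 := (EDT_ln Γ F R hΓ hF _ k1).le.trans (ENNReal.ofReal_le_ofReal (ha s hs))
    have l2 := (EDT_ln Γ F R hΓ hF _ k2).le.trans (ENNReal.ofReal_le_ofReal (hb1 s hs))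
    have l3 := (EDT_ln Γ F R hΓ hF _ k3).le.trans (ENNReal.ofReal_le_ofReal (hb2 s hs))
    have l4 := EDT_s2 (mP.restrict (PW F 2 R)) _ _ (fun p => aF D R s (pv D ch A.z A.z1 R s) χ p + aF D R s (Er D ch A.z A.z1 R s) φ p) b1 b2
      (EDT_ms Γ F R hΓ hF _ k3) hb10 hb20 (Eventually.of_forall fun p => norm_add_le _ _) l2 l3
    refine EDT_s2 (mP.restrict (PW F 2 R)) _ _ _ a _ (EDT_ms Γ F R hΓ hF _ (k2.add k3)) ha0 (by positivity) (Eventually.of_forall fun p => ?_) l1 l4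
    refine le_trans (le_of_eq ?_) (norm_add_le _ _)
    congr 1
    unfold EDT_V
    rw [EDT_add D R s _ (hRF s hs) _ _ _ (EDT_fh Γ F _ φ hg hφ).cont hχ.cont hχ2 p]
    simp only [Pi.add_apply, Pi.sub_apply, Pi.mul_apply, Function.comp]
    ring

theorem EDT_proof (hEDD : EDD_stmt) (hEDF : EDF_stmt) (hEDH : EDH_stmt) (hEDL : EDL_stmt) (hVSA : VSA_stmt) (hVFB : VFB_stmt) (hVFM : VFM_stmt)
    (hVD0 : VD0_stmt) (hVFR : VFR_stmt) (hVUB : VUB_stmt) (hHFA : HFA_stmt) : EDT_stmt := by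
  have _ := hHFA
  obtain ⟨CD, hCD1, hEDD⟩ := hEDD
  obtain ⟨CF, hCF1, hEDF⟩ := hEDF
  obtain ⟨RH, -, hEDH⟩ := hEDH
  obtain ⟨CS, hCS1, hVSA⟩ := hVSA
  obtain ⟨CB, hCB1, hVFB⟩ := hVFB
  obtain ⟨CM, hCM1, hVFM⟩ := hVFM
  obtain ⟨C0, hC01, hVD0⟩ := hVD0
  have hM0 : 0 ≤ CM * (1 + CB) := by positivity
  have hP1 : 0 ≤ CB * CM := by positivity
  have hP2 : 0 ≤ CB * C0 := by positivity
  refine ⟨CD + CF + CS + 4 * (CM * (1 + CB)) + CB * CM + CB * C0 + CM + 4 * C0, by linarith, ?_⟩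
  intro ch B A hch hA
  set CC : ℝ := CD + CF + CS + 4 * (CM * (1 + CB)) + CB * CM + CB * C0 + CM + 4 * C0 with hCC
  have hCC1 : 1 ≤ CC := by linarith
  obtain ⟨z0, z01, z12, ez, cz2, -, -⟩ := Adm_small hA hCC1
  have z1p : 0 < A.z1 := by linarith
  have hz1 : CC * A.z1 ≤ 1 := (mul_le_mul_of_nonneg_left z12 (by linarith)).trans cz2
  have hzz : ∀ c : ℝ, c ≤ CC → c * A.z1 ≤ 1 := fun c hc => (mul_le_mul_of_nonneg_right hc z1p.le).trans hz1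
  have hAD := Adm_mono hA hCD1 (by linarith : CD ≤ CC)
  have hAF := Adm_mono hA hCF1 (by linarith : CF ≤ CC)
  have rS := (Adm_small (Adm_mono hA hCS1 (by linarith : CS ≤ CC)) hCS1).2.2.2.2.2.2
  have rM := (Adm_small (Adm_mono hA hCM1 (by linarith : CM ≤ CC)) hCM1).2.2.2.2.2.2
  have r0 := (Adm_small (Adm_mono hA hC01 (by linarith : C0 ≤ CC)) hC01).2.2.2.2.2.2
  have q1 : CB * (CM * A.z1) ≤ 1 := by rw [← mul_assoc]; exact hzz _ (by linarith)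
  have q2 : CB * (C0 * A.z1) ≤ 1 := by rw [← mul_assoc]; exact hzz _ (by linarith)
  have q3 : 4 * (CM * (1 + CB)) * A.z1 ≤ 1 := hzz _ (by linarith)
  have p1 : 0 < CM * A.z1 := by positivity
  have p2 : 0 < C0 * A.z1 := by positivity
  have q4 : CM * A.z1 ≤ 1 / 4 := by nlinarith [mul_nonneg hP1 z1p.le]
  obtain ⟨RD, -, hEDD⟩ := hEDD ch B A hch hAD
  obtain ⟨RF, -, hEDF⟩ := hEDF ch B A hch hAF
  obtain ⟨RS, -, hVSA⟩ := hVSA ch A.e3 A.z A.z1 B hch rS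
  obtain ⟨K1, RB1, -, hVFB1⟩ := hVFB (CM * A.z1) p1 q1
  obtain ⟨K2, RB2, -, hVFB2⟩ := hVFB (C0 * A.z1) p2 q2
  obtain ⟨RM1, -, hVFM1⟩ := hVFM ch K1 A.e3 A.z A.z1 B hch rM
  obtain ⟨RM2, -, hVFM2⟩ := hVFM ch K2 A.e3 A.z A.z1 B hch rM
  obtain ⟨R00, -, hVD0⟩ := hVD0 ch K2 A.e3 A.z A.z1 A.z1 1 hch r0 le_rfl (hzz C0 (by linarith))
  -- asymptotics
  have ev1 : ∀ᶠ R : ℝ in atTop, 52 * (Real.log R) ^ 2 + 2 ≤ R ^ (19 / 6060 : ℝ) := by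
    have h := (isLittleO_log_rpow_rpow_atTop (2 : ℝ) (by norm_num : (0 : ℝ) < 19 / 6060)).bound (by norm_num : (0 : ℝ) < 1 / 104)
    have h2 := (tendsto_rpow_atTop (by norm_num : (0 : ℝ) < 19 / 6060)).eventually (eventually_ge_atTop (4 : ℝ))
    filter_upwards [h, h2, eventually_ge_atTop (1 : ℝ)] with R hR hR2 hR1
    rw [Real.norm_of_nonneg (Real.rpow_nonneg (Real.log_nonneg hR1) _),
      Real.norm_of_nonneg (Real.rpow_nonneg (by linarith) _), Real.rpow_two] at hR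
    linarith
  have ev2 : ∀ᶠ R : ℝ in atTop, R ^ (-(1 / 4) : ℝ) ≤ 1 / 16 := by
    have h := tendsto_rpow_neg_atTop (by norm_num : (0 : ℝ) < 1 / 4)
    exact h.eventually (ge_mem_nhds (by norm_num : (0 : ℝ) < 1 / 16))
  obtain ⟨Re, hRe⟩ := eventually_atTop.1 (ev1.and (ev2.and ((eventually_ge_atTop RH).and ((eventually_ge_atTop RD).and ((eventually_ge_atTop RF).and
    ((eventually_ge_atTop RS).and ((eventually_ge_atTop RB1).and ((eventually_ge_atTop RB2).and ((eventually_ge_atTop RM1).and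
    ((eventually_ge_atTop RM2).and (eventually_ge_atTop R00)))))))))))
  refine ⟨max 1 Re, le_max_left _ _, ?_⟩
  intro R δ t Γ F D f F' μ φ hR hΓ hF hD hδ hE ht0 ht
  have hR1 : 1 ≤ R := (le_max_left _ _).trans hR
  have hR0 : 0 < R := by linarith
  obtain ⟨hl, h16, hRH, hRD, hRF, hRS, hRB1, hRB2, hRM1, hRM2, hR00⟩ := hRe R ((le_max_right _ _).trans hR)
  have hDm : Dm Γ F := Or.inl ⟨hΓ, hF⟩
  have hPU : PU Γ D.U := (hVUB Γ δ B D.U hD.pot hδ).1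
  obtain ⟨hφ, hφ2, hH, hH2, -⟩ := hEDH Γ F D.U R f F' μ φ hRH hΓ hF hPU hE
  obtain ⟨-, -, hUf, -, hLip⟩ := hEDL Γ δ R B D f hR1 hD hδ hE.sm
  have hR2 : 2 * R ^ (-(1 / 4) : ℝ) ≤ 1 / 8 := by linarith
  have hN : 0 ≤ nn F φ := integral_nonneg fun z => by positivity
  have hg : QU.Inv Γ (fun z => R / 2 * (D.U z * f z)) := by
    refine ⟨continuous_const.mul hUf.1, fun γ z => ?_⟩
    show R / 2 * (D.U (γ • z) * f (γ • z)) = _
    have := hUf.2 γ z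
    simp only [] at this
    rw [this]
  have hgl : ∀ z w : ℍ, |R / 2 * (D.U z * f z) - R / 2 * (D.U w * f w)| ≤ 3 / 2 * R ^ (1 / 100 : ℝ) * dist z w := by
    intro z w
    rw [← mul_sub, abs_mul, abs_of_pos (by positivity : 0 < R / 2)]
    have e1 : R * R ^ (-(99 / 100) : ℝ) = R ^ (1 / 100 : ℝ) := by
      nth_rewrite 1 [← Real.rpow_one R]
      rw [← Real.rpow_add hR0]
      norm_num
    calc R / 2 * |D.U z * f z - D.U w * f w| ≤ R / 2 * (3 * R ^ (-(99 / 100) : ℝ) * dist z w) :=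
          mul_le_mul_of_nonneg_left (hLip z w) (by positivity)
      _ = 3 / 2 * (R * R ^ (-(99 / 100) : ℝ)) * dist z w := by ring
      _ = _ := by rw [e1]
  have hχ := EDT_fs Γ F _ _ hH (EDT_fh Γ F _ φ hg hφ)
  have hχn := EDT_nn Γ F hΓ hF _ φ _ hφ.cont hH2
  obtain ⟨hE1, hE2, hE3⟩ := hEDD R δ Γ F D φ hRD hDm hD hδ hφ hφ2 hH
  have hts : ∀ s ∈ Icc 0 t, |s| ≤ A.e3 * Real.log R := by
    intro s hs
    rw [abs_of_nonneg hs.1]
    exact hs.2.trans ht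
  have hm1 : ∀ η : ℝ, η ≤ 1 / 4 → R ^ (-(1 / 2) + η) ≤ 1 / 4 := fun η hη =>
    (Real.rpow_le_rpow_of_exponent_le hR1 (by linarith : -(1 / 2) + η ≤ -(1 / 4))).trans (by linarith)
  have hRFt : ∀ s ∈ Icc 0 t, EDT_RF D R s (pv D ch A.z A.z1 R s) := fun s hs =>
    EDT_rf hVFR Γ F δ B D K1 _ _ R s _ hDm hD hδ p1 q4 (Real.rpow_nonneg hR0.le _) (hm1 _ q4) hR2 hR1 (hVFM1 R δ s Γ D hRM1 hD hδ (hts s hs)).1
  have h0t : (0 : ℝ) ∈ Icc 0 t := ⟨le_rfl, ht0⟩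
  set Q : ℝ := R ^ (-(2 / 101) : ℝ) with hQ
  have hQ0 : 0 ≤ Q := Real.rpow_nonneg hR0.le _
  have hQN : 0 ≤ Q * nn F φ := mul_nonneg hQ0 hN
  -- the three bounds
  have ba : ∀ s ∈ Icc 0 t, nP F 2 R (fun p => aF D R s (pv D ch A.z A.z1 R s) (fun z => ((R / 2 * (D.U z * f z) : ℝ) : ℂ) * φ z) p -
      ((R / 2 * (D.U (D.fl p.2 s p.1 • I) * f (D.fl p.2 s p.1 • I)) : ℝ) : ℂ) * aF D R s (pv D ch A.z A.z1 R s) φ p) ≤ 3 * Q * nn F φ := by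
    intro s hs
    refine (hEDF R δ s (3 / 2 * R ^ (1 / 100 : ℝ)) Γ F D φ (fun z => R / 2 * (D.U z * f z)) hRF hDm hD hδ hφ hg (by positivity) hgl hs.1 (hs.2.trans ht)).trans ?_
    refine mul_le_mul_of_nonneg_right ?_ hN
    have e1 : (3 / 2 * R ^ (1 / 100 : ℝ)) ^ 2 * R ^ (-(1 / 6) : ℝ) = 9 / 4 * R ^ (1 / 50 - 1 / 6 : ℝ) := by
      rw [mul_pow, ← Real.rpow_natCast (R ^ (1 / 100 : ℝ)), ← Real.rpow_mul hR0.le, mul_assoc, ← Real.rpow_add hR0]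
      norm_num
    rw [e1]
    have e2 : R ^ (1 / 50 - 1 / 6 : ℝ) ≤ Q := Real.rpow_le_rpow_of_exponent_le hR1 (by norm_num)
    linarith
  have bb1 : ∀ s ∈ Icc 0 t, nP F 2 R (aF D R s (pv D ch A.z A.z1 R s) (fun z => Hop D.U R φ z - ((R / 2 * (D.U z * f z) : ℝ) : ℂ) * φ z)) ≤ 4 * Q * nn F φ := by
    intro s hs
    refine ((hVSA R δ s Γ F D hRS hDm hD hδ hs.1 (hs.2.trans ht)).2 _ hχ).trans ?_
    have e1 : (1 + R ^ (-(1 / 4) : ℝ)) ^ 2 ≤ 2 ^ 2 := pow_le_pow_left₀ (by positivity) (by linarith) 2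
    have e2 : (R ^ (-(1 / 101) : ℝ)) ^ 2 ≤ Q := EDT_n2 R _ hR1 le_rfl
    calc (1 + R ^ (-(1 / 4) : ℝ)) ^ 2 * nn F (fun z => Hop D.U R φ z - ((R / 2 * (D.U z * f z) : ℝ) : ℂ) * φ z)
        ≤ 2 ^ 2 * ((R ^ (-(1 / 101) : ℝ)) ^ 2 * nn F φ) := mul_le_mul e1 hχn (integral_nonneg fun z => by positivity) (by norm_num)
      _ ≤ 2 ^ 2 * (Q * nn F φ) := mul_le_mul_of_nonneg_left (mul_le_mul_of_nonneg_right e2 hN) (by norm_num)
      _ = _ := by ring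
  have bb2 : ∀ s ∈ Icc 0 t, nP F 2 R (aF D R s (Er D ch A.z A.z1 R s) φ) ≤ Q * nn F φ := by
    intro s hs
    refine ((hVFB1 R δ _ s Γ F B D _ hRB1 hDm hD hδ (Real.rpow_nonneg hR0.le _) (hVFM1 R δ s Γ D hRM1 hD hδ (hts s hs)).2.1).2 φ hφ).trans ?_
    refine mul_le_mul_of_nonneg_right ?_ hN
    rw [← Real.rpow_add hR0]
    refine EDT_n2 R _ hR1 ?_
    nlinarith
  have bb0 : ∫⁻ p in PW F 2 R, ‖aF D R 0 (fun p v => pv D ch A.z A.z1 R 0 p v - fG D ch A.z R p v) φ p‖ₑ ^ 2 ∂mP ≤ ENNReal.ofReal (Q * nn F φ) ∧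
      Measurable (aF D R 0 (fun p v => pv D ch A.z A.z1 R 0 p v - fG D ch A.z R p v) φ) := by
    have hb := hVFM2 R δ 0 Γ D hRM2 hD hδ (by simpa using hts 0 h0t)
    have hfa : Fa Γ D K2 (C0 * A.z1) (R ^ (-1 : ℝ)) R 0 (fun p v => pv D ch A.z A.z1 R 0 p v - fG D ch A.z R p v) := by
      refine ⟨hb.1.cont.sub hb.2.2.1.cont, fun γ p => ?_, fun p hp => ?_⟩
      · have i1 := hb.1.inv γ p
        have i2 := hb.2.2.1.inv γ p
        funext v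
        simp only [i1, i2]
      · rw [hD.fl0]
        exact (hVD0 R δ Γ B D p 0 hR00 hD hδ ((abs_le.2 ⟨hp.2.1, hp.2.2⟩).trans hR2) (by simpa using hts 0 h0t)).1
    have q5 : C0 * A.z1 ≤ 1 := hzz C0 (by linarith)
    have hnp : nP F 2 R (aF D R 0 (fun p v => pv D ch A.z A.z1 R 0 p v - fG D ch A.z R p v) φ) ≤ Q * nn F φ := by
      refine ((hVFB2 R δ _ 0 Γ F B D _ hRB2 hDm hD hδ (Real.rpow_nonneg hR0.le _) hfa).2 φ hφ).trans ?_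
      refine mul_le_mul_of_nonneg_right ?_ hN
      rw [← Real.rpow_add hR0]
      refine EDT_n2 R _ hR1 ?_
      linarith
    have hFP := (hVFR Γ F δ B D K2 _ _ R 0 _ hDm hD hδ p2 (by linarith [hzz (4 * C0) (by linarith)]) (Real.rpow_nonneg hR0.le _)
      (hm1 _ (by linarith [hzz (4 * C0) (by linarith)])) hR2 hR1 hfa).2.2.2.2.1 φ hφ
    exact ⟨(EDT_ln2 Γ F R hΓ hF _ hFP.meas hFP.bdd).le.trans (ENNReal.ofReal_le_ofReal hnp), hFP.meas⟩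
  have hcore := EDT_core Γ F δ B D ch A R f φ _ hΓ hF hD hR2 hφ hH hUf hg hχ (fun z => by ring) hE1 hE2 hE3 t (3 * Q * nn F φ) (4 * Q * nn F φ) (Q * nn F φ) ht0 ht
    (by positivity) (by positivity) hQN hRFt ba bb1 bb2
  have hl2 : t ^ 2 ≤ (Real.log R) ^ 2 := by
    have h1 : A.e3 ≤ 1 := by nlinarith
    have h2 : 0 ≤ Real.log R := Real.log_nonneg hR1
    have h3 : t ≤ Real.log R := ht.trans (by unfold Prm.sg; nlinarith)
    exact pow_le_pow_left₀ ht0 h3 2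
  refine EDT_le F R _ _ (by positivity) (le_trans ?_ (ENNReal.ofReal_le_ofReal
    (EDT_num Q (nn F φ) (3 * Q * nn F φ) (4 * Q * nn F φ) (Q * nn F φ) (Q * nn F φ) t (Real.log R) R hR1 hN hQ le_rfl le_rfl le_rfl le_rfl hl2 hl)))
  refine EDT_s2 (mP.restrict (PW F 2 R)) _ _ _ _ _ bb0.2.aestronglyMeasurable (by positivity) hQN ?_ hcore bb0.1
  refine (ae_restrict_iff' (EDT_set Γ F R hΓ hF).1).2 (Eventually.of_forall fun p hp => ?_)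
  have hpG : p ∈ GW 2 R := ⟨mem_univ _, hp.2⟩
  have hb := hVFM1 R δ 0 Γ D hRM1 hD hδ (by simpa using hts 0 h0t)
  have hRG : EDT_RF D R 0 (fG D ch A.z R) :=
    EDT_rf hVFR Γ F δ B D K1 _ _ R 0 _ hDm hD hδ p1 q4 (Real.rpow_nonneg hR0.le _) (hm1 _ q4) hR2 hR1 hb.2.2.1
  have e0 : EDT_Y D ch A R f φ 0 p = aF D R 0 (pv D ch A.z A.z1 R 0) φ p := by
    unfold EDT_Y thP
    simp
  have e1 : aF D R 0 (fG D ch A.z R) φ p = QF D.U ch A.z R φ p := by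
    unfold aF QF
    rw [indicator_of_mem hpG]
    simp only [hb.2.2.2.2]
  have e2 : aF D R 0 (fun p v => pv D ch A.z A.z1 R 0 p v - fG D ch A.z R p v) φ p = EDT_Y D ch A R f φ 0 p - QF D.U ch A.z R φ p := by
    rw [EDT_sub D R 0 _ _ (hRFt 0 h0t) hRG φ hφ.cont p, e0, e1]
  rw [e2]
  have e3 : EDT_Y D ch A R f φ t p - QF D.U ch A.z R φ p = Complex.exp (-(((thP D f R t p : ℝ) : ℂ) * Complex.I)) *
      (aF D R t (pv D ch A.z A.z1 R t) φ p - Complex.exp (((thP D f R t p : ℝ) : ℂ) * Complex.I) * QF D.U ch A.z R φ p) := by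
    unfold EDT_Y
    rw [mul_sub, ← mul_assoc (Complex.exp _) (Complex.exp _), ← Complex.exp_add, neg_add_cancel, Complex.exp_zero, one_mul]
  have e4 : ‖aF D R t (pv D ch A.z A.z1 R t) φ p - Complex.exp (((thP D f R t p : ℝ) : ℂ) * Complex.I) * QF D.U ch A.z R φ p‖ =
      ‖EDT_Y D ch A R f φ t p - QF D.U ch A.z R φ p‖ := by
    rw [e3, norm_mul, EDT_expn, one_mul]
  rw [e4, ← sub_add_sub_cancel (EDT_Y D ch A R f φ t p) (EDT_Y D ch A R f φ 0 p) (QF D.U ch A.z R φ p)]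
  exact norm_add_le _ _

end Pool.Agent.VQ
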