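import Pool.Agent.helper74.VQ.SpecC
import Pool.Agent.helper11.VQ.Spec3b

/-!
# Project VQ (MP_07c750_an), block 2d: eigenfunctions, rows `vqd:X`; final rows ED3 = (I3), ED8 = (I8)

RULES: as in `helper74/VQ/Defs.lean`. Row `vqd:XXX`: file `Pool/Agent/<seat>/VQ/XXX.lean`, `import Pool.Agent.helper55.VQ.SpecD`, `set_option autoImplicit false`, namespace `Pool.Agent.VQ`, the `open` lines of this file, theorem `XXX_proof (h..) : XXX_stmt` (all rows of VQ,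
QU, RS, EN, RPQ may be hypotheses `(h : YYY_stmt)`, no circles), auxiliary lemmas prefixed `XXX_`. No `convert`, `congr!`, `native_decide`, no double quotes, no `private`.

CONSTANTS. `Adm C A` gives `0 < e3`, `C e3 ≤ z`, `C z ≤ z1`, `C z1 ≤ z2`, `C m z2 ≤ 1`, so for a large `C`: `z2 ≤ 1/C`, `z1 ≤ C⁻²`, `z ≤ C⁻³`, `e3 ≤ C⁻⁴` and `m e3 ≤ C⁻⁴` (all exponents `C' z1`, `C' z2`, `C' m e3` are as small as we like). `Rg C e3 z z1` follows. `C` of a row = a large multiple of the constants of the rows which are used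
(`Adm_mono` below). `R0` may depend on `ch, B, A`.

`P_t = aF D R t (pv D ch A.z A.z1 R t) φ` are the coefficients of the evolved packets, `Φ = QF φ`, `E_t = aF D R t (Er D ch A.z A.z1 R t) φ` the coefficients of the errors.
-/

open scoped MatrixGroups ContDiff Topology UpperHalfPlane ComplexConjugate ENNReal
open UpperHalfPlane MeasureTheory Filter Set

namespace Pool.Agent.VQ

open Pool.Agent.RS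
open Pool.Agent.RPQ (CEig mean VV IsOp)

noncomputable section

/-- a weaker admissibility condition -/
theorem Adm_mono {C C' : ℝ} {A : Prm} (h : Adm C A) (h1 : 1 ≤ C') (h2 : C' ≤ C) : Adm C' A := by
  have e3 := h.e3
  have hz := h.z
  have hz1 := h.z1
  have hz2 := h.z2
  have hm : (1 : ℝ) ≤ A.m := by exact_mod_cast h.m
  have a0 : 0 ≤ A.z := by nlinarith
  have a1 : 0 ≤ A.z1 := by nlinarith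
  have a2 : 0 ≤ A.z2 := by nlinarith
  refine ⟨h.e3, h.m, ?_, ?_, ?_, ?_, h.tu⟩
  · nlinarith
  · nlinarith
  · nlinarith
  · have := h.up
    have a3 : 0 ≤ (A.m : ℝ) * A.z2 := by positivity
    nlinarith

/-- the size of the parameters -/
theorem Adm_small {C : ℝ} {A : Prm} (h : Adm C A) (h1 : 1 ≤ C) :
    0 < A.z ∧ A.z ≤ A.z1 ∧ A.z1 ≤ A.z2 ∧ A.e3 ≤ A.z ∧ C * A.z2 ≤ 1 ∧ C * (A.m * A.e3) ≤ 1 / C ∧ Rg C A.e3 A.z A.z1 := by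
  have e3 := h.e3
  have hz := h.z
  have hz1 := h.z1
  have hz2 := h.z2
  have hm : (1 : ℝ) ≤ A.m := by exact_mod_cast h.m
  have b0 : A.e3 ≤ A.z := by nlinarith
  have a0 : 0 < A.z := by linarith
  have b1 : A.z ≤ A.z1 := by nlinarith
  have b2 : A.z1 ≤ A.z2 := by nlinarith
  have a2 : 0 < A.z2 := by linarith
  have a3 : A.z2 ≤ A.m * A.z2 := by nlinarith
  have up := h.up
  have c2 : C * A.z2 ≤ 1 := by nlinarith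
  have hC : 0 < C := by linarith
  have d1 : C * A.e3 ≤ A.z2 := by nlinarith
  have d2 : (A.m : ℝ) * (C * A.e3) ≤ A.m * A.z2 := by
    apply mul_le_mul_of_nonneg_left d1
    linarith
  refine ⟨a0, b1, b2, b0, c2, ?_, ⟨by linarith, a0, b1, ?_, ?_⟩⟩
  · rw [le_div_iff₀ hC]
    nlinarith
  · nlinarith
  · nlinarith

/-- a weaker bound for the potential -/
theorem OKD_mono {Γ : Subgroup SL(2, ℝ)} {δ δ' : ℝ} {B : ℕ → ℝ} {D : Dyn} (h : OKD Γ δ B D) (h1 : δ ≤ δ') : OKD Γ δ' B D :=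
  { h with pot := { h.pot with near := fun g v hv n hn => (h.pot.near g v hv n hn).trans h1 } }

/-! ## The eigenfunction -/

/-- **Row EDH** (`Hop` of the eigenfunction; short-medium; from RS/QU: continuity of `CD 2` functions). `lap φ = μ e^(F') φ`, so `Hop φ = (2R)⁻¹ (μ e^(F') - R² U) φ`. `μ = R² (1 + ε2)`, `|ε2| ≤ 3 R^(-1-1/100)` (from `|√μ - R| ≤ R^(-1/100)`), `e^(F') = U e^(f + ε1)`, `|ε1| ≤ R^(-3)`, `|f| ≤ R^(1/100-1)`: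
`(1 + ε2) e^(f+ε1) - 1 - f = (e^(f+ε1) - 1 - f) + ε2 e^(f+ε1)`, `|e^x - 1 - x| ≤ x²` (`|x| ≤ 1`): at most `R^(-3) + 4 R^(-2+1/50) + 6 R^(-1-1/100) ≤ 8 R^(-1-1/100)`, times `R U/2 ≤ R`: `8 R^(-1/100) ≤ R^(-1/101)`. `FH`: `F` is relatively compact. -/
def EDH_stmt : Prop := ∃ R0 : ℝ, 2 ≤ R0 ∧ ∀ (Γ : Subgroup SL(2, ℝ)) (F : Set ℍ) (U : ℍ → ℝ) (R : ℝ) (f F' : ℍ → ℝ) (μ : ℝ) (φ : ℍ → ℂ), R0 ≤ R → QU.SurfaceGroup Γ → QU.NiceDom Γ F → PU Γ U → EgT Γ U R f F' μ φ →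
  FH Γ F φ ∧ QU.CD 2 φ ∧ FH Γ F (Hop U R φ) ∧ (∀ z, ‖Hop U R φ z - ((R / 2 * (U z * f z) : ℝ) : ℂ) * φ z‖ ≤ R ^ (-(1 / 101) : ℝ) * ‖φ z‖) ∧
  ∀ z, ‖Hop U R φ z‖ ≤ 2 * R ^ (1 / 100 : ℝ) * ‖φ z‖

/-- **Row EDL** (Lipschitz constants; short-medium; from VUB, VCD). `U z - U w = Ug U g 0 - Ug U g v` with `g • I = z`, `v = cd (g⁻¹ • w)`: for `dist z w ≤ 1` `‖v‖ ≤ dist z w` (VCD) and VUB: `≤ δ dist`; for `dist z w ≥ 1`: `|U - 1| ≤ δ`. So `|U z - U w| ≤ 2 δ dist ≤ dist`.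
`|U f (z) - U f (w)| ≤ U(z) |f z - f w| + |f w| |U z - U w| ≤ 3 R^(1/100 - 1) dist`. Invariant continuous: `QU.Inv`. -/
def EDL_stmt : Prop := ∀ (Γ : Subgroup SL(2, ℝ)) (δ R : ℝ) (B : ℕ → ℝ) (D : Dyn) (f : ℍ → ℝ), 1 ≤ R → OKD Γ δ B D → δ ≤ 1 / 10 → Sm Γ (R ^ (1 / 100 : ℝ)) R f →
  QU.Inv Γ D.U ∧ (∀ z w : ℍ, |D.U z - D.U w| ≤ dist z w) ∧ QU.Inv Γ (fun z => D.U z * f z) ∧ (∀ z, |D.U z * f z| ≤ 2 * R ^ (-(99 / 100) : ℝ)) ∧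
  ∀ z w : ℍ, |D.U z * f z - D.U w * f w| ≤ 3 * R ^ (-(99 / 100) : ℝ) * dist z w

/-- **Row EDW** (the energy window; medium; from EDH, VIS, VEL, VQA, VQS, VUB). `lap φ - R² (U + 0) φ = 2 R Hop φ`, `nn ≤ 4 R² · 4 R^(1/50) nn φ` (EDH), so VEL (`E0 = 0`, `L = 1/10`: VUB) gives `∫∫ E² |Φ|² ≤ 17 R^(8 z - 1) nn φ`. Outside `|E| ≤ c R^(-1/4)`, `c ≥ 1`, `E² ≥ R^(-1/2)`: mass `≤ 17 R^(8z - 1/2) nn φ ≤ R^(-1/4) nn φ`.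
First: VQA. Third: VIS (total mass `nn φ`; `Wi 1 R` is contained in `{E > - U/2}`). `nP F c R v = ∫_(PW F c R)` against the iterated integral: Tonelli for `mP = mG × volume`, `PW F c R = dG F × Wi c R`. -/
def EDW_stmt : Prop := ∃ C : ℝ, 1 ≤ C ∧ ∀ (ch : ℝ → ℝ) (B : ℕ → ℝ) (A : Prm), CH ch → Adm C A → ∃ R0 : ℝ, 1 ≤ R0 ∧ ∀ (R δ : ℝ) (Γ : Subgroup SL(2, ℝ)) (F : Set ℍ) (D : Dyn) (f F' : ℍ → ℝ) (μ : ℝ) (φ : ℍ → ℂ), R0 ≤ R → QU.SurfaceGroup Γ → QU.NiceDom Γ F → OKD Γ δ B D → δ ≤ 1 / 10 → EgT Γ D.U R f F' μ φ →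
  FP Γ F (QF D.U ch A.z R φ) ∧ nn F (fun z => Qs D.U ch A.z R (QF D.U ch A.z R φ) z - φ z) ≤ R ^ (-(1 / 4) : ℝ) * nn F φ ∧ nP F 2 R (QF D.U ch A.z R φ) ≤ nn F φ ∧
  (1 - R ^ (-(1 / 4) : ℝ)) * nn F φ ≤ nP F 1 R (QF D.U ch A.z R φ) ∧ nP F 1 R (QF D.U ch A.z R φ) ≤ nP F 2 R (QF D.U ch A.z R φ)

/-! ## Transport -/

/-- **Row EDA** (Schur bound with absolute values; medium; from VSH, VDM, VFM, VFR, VPB, HFM, VUB, RS.GMG). The kernel `‖psi p z‖` on `X = G × ℝ` with `mP.restrict (GW 2 R)`, `Y = ℍ`. `‖psi‖ ≤ R^(3/2 + C z1)`, supported in `dist (fl i) z ≤ 2 R^(-1/2 + C z1)` (`Pk`, VCD). Row sums: `R^(3/2 + C z1)` times the area `C R^(-1 + C z1)`: `≤ R^(1/2 + C' z1)`.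
Column sums: for fixed `E` the flow preserves `mG` (HFM), so `mP {p ∈ GW 2 R | dist (fl i) z ≤ s} = 4 R^(-1/4) mG {g | dist (g i) z ≤ s} ≤ C R^(-1/4) s²` (RS.GMG, area of a ball): `≤ R^(3/2 - 1/4 - 1 + C' z1) = R^(1/4 + C' z1)`. Product `≤ R^(3/4 + 2 C' z1) ≤ R^(4/5)`. `psi` is `Γ`-invariant (VFR). -/
def EDA_stmt : Prop := ∃ C : ℝ, 1 ≤ C ∧ ∀ (ch : ℝ → ℝ) (B : ℕ → ℝ) (A : Prm), CH ch → Adm C A → ∃ R0 : ℝ, 1 ≤ R0 ∧ ∀ (R δ t : ℝ) (Γ : Subgroup SL(2, ℝ)) (F : Set ℍ) (D : Dyn) (φ : ℍ → ℂ), R0 ≤ R → Dm Γ F → OKD Γ δ B D → δ ≤ 1 / 10 → FH Γ F φ → 0 ≤ t → t ≤ A.sg R →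
  ∫⁻ p in PW F 2 R, (∫⁻ z : ℍ, ‖φ z‖ₑ * ‖psi D ch A.z A.z1 R t p z‖ₑ) ^ 2 ∂mP ≤ ENNReal.ofReal (R ^ (4 / 5 : ℝ) * nn F φ)

/-- **Row EDF** (freezing; short-medium; from EDA, VFM, VFR, VCD). The difference is `∫ (g z - g (fl i)) φ(z) conj psi`, and `|g z - g (fl i)| ≤ L · 2 R^(-1/2 + C z1)` on the support of `psi`: `(2 L R^(-1/2 + C z1))² R^(4/5) ≤ L² R^(-1/6)`. -/
def EDF_stmt : Prop := ∃ C : ℝ, 1 ≤ C ∧ ∀ (ch : ℝ → ℝ) (B : ℕ → ℝ) (A : Prm), CH ch → Adm C A → ∃ R0 : ℝ, 1 ≤ R0 ∧ ∀ (R δ t L : ℝ) (Γ : Subgroup SL(2, ℝ)) (F : Set ℍ) (D : Dyn) (φ : ℍ → ℂ) (g : ℍ → ℝ), R0 ≤ R → Dm Γ F → OKD Γ δ B D → δ ≤ 1 / 10 → FH Γ F φ →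
  QU.Inv Γ g → 0 ≤ L → (∀ z w : ℍ, |g z - g w| ≤ L * dist z w) → 0 ≤ t → t ≤ A.sg R →
    nP F 2 R (fun p => aF D R t (pv D ch A.z A.z1 R t) (fun z => ((g z : ℝ) : ℂ) * φ z) p - ((g (D.fl p.2 t p.1 • I) : ℝ) : ℂ) * aF D R t (pv D ch A.z A.z1 R t) φ p) ≤ L ^ 2 * R ^ (-(1 / 6) : ℝ) * nn F φ

/-- **Row EDD** (the derivative in `t`; medium; from VRM, VPR, VFM, VFR, HFA, QU.GRN). VRM (second part): `∂_t psi = - i Hop psi - i Er`, everything is continuous in `(p, t, z)` (VPR) and for `t` in a bounded interval and `p` in a compact set supported in a compact set of `z` (VFR: `dist (p.1 i) z ≤ 6/5 |t| + 1`): differentiate under the integral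
(`hasDerivAt_integral_of_dominated_loc_of_deriv_le`). `∂_t conj psi = i conj (Hop psi) + i conj Er`, `∫ φ conj (Hop psi) = ∫ (Hop φ) conj psi` by Green's formula (GRN for the real and the imaginary part of `psi`, compact support; `U` is real). Continuity: dominated convergence. -/
def EDD_stmt : Prop := ∃ C : ℝ, 1 ≤ C ∧ ∀ (ch : ℝ → ℝ) (B : ℕ → ℝ) (A : Prm), CH ch → Adm C A → ∃ R0 : ℝ, 1 ≤ R0 ∧ ∀ (R δ : ℝ) (Γ : Subgroup SL(2, ℝ)) (F : Set ℍ) (D : Dyn) (φ : ℍ → ℂ), R0 ≤ R → Dm Γ F → OKD Γ δ B D → δ ≤ 1 / 10 → FH Γ F φ → QU.CD 2 φ → FH Γ F (Hop D.U R φ) →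
  (∀ p ∈ GW 2 R, ∀ t ∈ Icc 0 (A.sg R), HasDerivAt (fun s => aF D R s (pv D ch A.z A.z1 R s) φ p)
    (Complex.I * aF D R t (pv D ch A.z A.z1 R t) (Hop D.U R φ) p + Complex.I * aF D R t (Er D ch A.z A.z1 R t) φ p) t) ∧
  (∀ u : ℍ → ℂ, FH Γ F u → ContinuousOn (fun x : (SL(2, ℝ) × ℝ) × ℝ => aF D R x.2 (pv D ch A.z A.z1 R x.2) u x.1) (GW 2 R ×ˢ Icc 0 (A.sg R))) ∧
  ContinuousOn (fun x : (SL(2, ℝ) × ℝ) × ℝ => aF D R x.2 (Er D ch A.z A.z1 R x.2) φ x.1) (GW 2 R ×ˢ Icc 0 (A.sg R))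

/-- **Row EDT** (TRANSPORT; medium; from EDD, EDF, EDH, EDL, VSA, VFB, VFM, VD0, VFR, VUB, HFA). `X(t) = e^(-iθ_t) P_t`, `θ_t(p) = thP D f R t p` (derivative `(R/2)(U f)(fl i)`). By EDD `X' = i e^(-iθ) [P_t((R/2) U f φ) - (R/2)(U f)(fl i) P_t(φ) + P_t(χ) + E_t]`, `χ = Hop φ - (R/2) U f φ`.
`nP` of the three parts: EDF with `g = (R/2) U f`, `L = 3/2 R^(1/100)` (EDL): `≤ 3 R^(1/50 - 1/6) nn φ`; VSA and EDH: `≤ 4 R^(-2/101) nn φ`; VFB, VFM: `≤ (R^(1 + C z1 - 3/2 + C z1))² nn φ ≤ R^(-1/2) nn φ`. `|X(t) - X(0)|² ≤ t ∫_0^t |X'|²`, Tonelli: `nP (X(t) - X(0)) ≤ t² · 3 · 8 R^(-2/101) nn φ`, `t ≤ log R`.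
At `t = 0`: `P_0 - Φ` are the coefficients of the family `pv (0) - fG`, of class `Pk` with `m = R^(-8)` (VD0; `Fa`: continuity and invariance from VFM), VFB: `≤ R^(-8) nn φ` (`QF φ p = aF D R 0 (fG ..) φ p` on `GW 2 R`, VFM). `nP (x + y) ≤ 2 nP x + 2 nP y`. -/
def EDT_stmt : Prop := ∃ C : ℝ, 1 ≤ C ∧ ∀ (ch : ℝ → ℝ) (B : ℕ → ℝ) (A : Prm), CH ch → Adm C A → ∃ R0 : ℝ, 1 ≤ R0 ∧ ∀ (R δ t : ℝ) (Γ : Subgroup SL(2, ℝ)) (F : Set ℍ) (D : Dyn) (f F' : ℍ → ℝ) (μ : ℝ) (φ : ℍ → ℂ), R0 ≤ R → QU.SurfaceGroup Γ → QU.NiceDom Γ F → OKD Γ δ B D → δ ≤ 1 / 10 → EgT Γ D.U R f F' μ φ →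
  0 ≤ t → t ≤ A.sg R →
    nP F 2 R (fun p => aF D R t (pv D ch A.z A.z1 R t) φ p - Complex.exp (((thP D f R t p : ℝ) : ℂ) * Complex.I) * QF D.U ch A.z R φ p) ≤ R ^ (-(1 / 60) : ℝ) * nn F φ

/-- **Row ED1** (one small step; short-medium; from VTS, EDW, EDT, VSA, VQA, VFM, VFR). `Φ` is `FP` (EDW). VTS: `Op us Φ = ∫ Qs Φ conj psi(σ) + O(R^(-8))`, `Qs Φ = φ + u` with `nn u ≤ R^(-1/4) nn φ`, `∫ u conj psi = aF .. u` (`nP ≤ 4 R^(-1/4) nn φ`, VSA), `∫ φ conj psi = P_σ`, EDT with `t = σ`: `3 (R^(-8) + 4 R^(-1/4) + R^(-1/60)) ≤ R^(-1/70)`.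
`pr`: VTS second part, `QF (Qs Φ) = Φ + QF u`, `nP (QF u) ≤ nn u` (VQA). `aF` is the integral on `GW 2 R`, which contains `PW F 2 R`. -/
def ED1_stmt : Prop := ∃ C : ℝ, 1 ≤ C ∧ ∀ (ch : ℝ → ℝ) (B : ℕ → ℝ) (A : Prm), CH ch → Adm C A → ∃ R0 : ℝ, 1 ≤ R0 ∧ ∀ (R δ : ℝ) (Γ : Subgroup SL(2, ℝ)) (F : Set ℍ) (D : Dyn) (f F' : ℍ → ℝ) (μ : ℝ) (φ : ℍ → ℂ), R0 ≤ R → QU.SurfaceGroup Γ → QU.NiceDom Γ F → OKD Γ δ B D → δ ≤ 1 / 10 → EgT Γ D.U R f F' μ φ →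
  nP F 2 R (fun p => Op (us D ch A R) (QF D.U ch A.z R φ) p - Complex.exp (((thP D f R (A.sg R) p : ℝ) : ℂ) * Complex.I) * QF D.U ch A.z R φ p) ≤ R ^ (-(1 / 70) : ℝ) * nn F φ ∧
  nP F 2 R (fun p => Op (pr D ch A R) (QF D.U ch A.z R φ) p - QF D.U ch A.z R φ p) ≤ R ^ (-(1 / 5) : ℝ) * nn F φ

/-! ## Slowly varying functions and the phases -/

/-- **Row EDG** (neighbours stay close for the time `τ`; short; from HFG, VBO). HFG with `s = A.r R = R^(-1/2 + z2)`: `C e^(Cτ) s ≤ R^(-2/5)` because `C m e3` is small; VBO: the distance of the base points is `≤ C R^(-2/5) ≤ R^(-1/3)` (`dist (g i) (h i) = dist ((g⁻¹ h) i) i`). -/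
def EDG_stmt : Prop := ∃ C : ℝ, 1 ≤ C ∧ ∀ (B : ℕ → ℝ) (A : Prm), Adm C A → ∃ R0 : ℝ, 1 ≤ R0 ∧ ∀ (R δ t : ℝ) (Γ : Subgroup SL(2, ℝ)) (D : Dyn) (p q : SL(2, ℝ) × ℝ), R0 ≤ R → OKD Γ δ B D → δ ≤ 1 / 10 → p ∈ GW 2 R → q ∈ GW 2 R → Nb (A.r R) p q → 0 ≤ t → t ≤ A.tu R →
  dist (D.fl p.2 t p.1 • I : ℍ) (D.fl q.2 t q.1 • I) ≤ R ^ (-(1 / 3) : ℝ)

/-- **Row EDY** (the phases; short-medium; from EDG, EDL, HFA). (1) `∫_0^(s+t) = ∫_0^s + ∫_s^(s+t)`, substitution and HFA (additivity: `fl E (s + u) g = fl E u (fl E s g)`); the integrands are continuous (`OKD.cfl`). (2) `(R/2) ∫_0^t |(U f)(fl p) - (U f)(fl q)| ≤ (R/2) · log R · 3 R^(1/100 - 1) R^(-1/3) ≤ R^(-1/4)`. -/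
def EDY_stmt : Prop := ∃ C : ℝ, 1 ≤ C ∧ ∀ (B : ℕ → ℝ) (A : Prm), Adm C A → ∃ R0 : ℝ, 1 ≤ R0 ∧ ∀ (R δ : ℝ) (Γ : Subgroup SL(2, ℝ)) (D : Dyn) (f : ℍ → ℝ), R0 ≤ R → OKD Γ δ B D → δ ≤ 1 / 10 → Sm Γ (R ^ (1 / 100 : ℝ)) R f →
  (∀ (s t : ℝ) (p : SL(2, ℝ) × ℝ), p ∈ GW 2 R → thP D f R (s + t) p = thP D f R s p + thP D f R t (D.ph s p)) ∧
  ∀ (t : ℝ) (p q : SL(2, ℝ) × ℝ), p ∈ GW 2 R → q ∈ GW 2 R → Nb (A.r R) p q → 0 ≤ t → t ≤ A.tu R → |thP D f R t p - thP D f R t q| ≤ R ^ (-(1 / 4) : ℝ)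

/-- bounded measurable invariant functions on phase space with values in the unit disc which vary by at most `w` between neighbours in the window -/
structure SV (Γ : Subgroup SL(2, ℝ)) (A : Prm) (R w : ℝ) (H : SL(2, ℝ) × ℝ → ℂ) : Prop where
  meas : Measurable H
  inv : ∀ (γ : Γ) (p : SL(2, ℝ) × ℝ), H ((γ : SL(2, ℝ)) * p.1, p.2) = H p
  bd : ∀ p, ‖H p‖ ≤ 1
  var : ∀ p q : SL(2, ℝ) × ℝ, p ∈ GW 2 R → q ∈ GW 2 R → Nb (A.r R) p q → ‖H p - H q‖ ≤ w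

/-- **Row EDC** (the commutator; short-medium; from VUS, VUM, VSH, VDM, HFM). `us p q ≠ 0` implies `p, q ∈ GW 2 R` and `Nb (A.r R) (D.ph σ p) q`, so the difference is at most `w ∫ |us p q| |v q|`; VSH and VUS: `w² R^(2 C' z2) nP v ≤ w² R^(1/100) nP v` (`us` is invariant and measurable: `KZ` in VUM). -/
def EDC_stmt : Prop := ∃ C : ℝ, 1 ≤ C ∧ ∀ (ch : ℝ → ℝ) (B : ℕ → ℝ) (A : Prm), CH ch → Adm C A → ∃ R0 : ℝ, 1 ≤ R0 ∧ ∀ (R δ w : ℝ) (Γ : Subgroup SL(2, ℝ)) (F : Set ℍ) (D : Dyn) (H v : SL(2, ℝ) × ℝ → ℂ), R0 ≤ R → Dm Γ F → OKD Γ δ B D → δ ≤ 1 / 10 → 0 ≤ w → SV Γ A R w H → FP Γ F v →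
  nP F 2 R (fun p => Op (us D ch A R) (fun q => H q * v q) p - H (D.ph (A.sg R) p) * Op (us D ch A R) v p) ≤ w ^ 2 * R ^ (1 / 100 : ℝ) * nP F 2 R v

/-- **Row EDM** (ALL SMALL STEPS; medium; from ED1, EDC, EDY, EDW, VTS, VTN, VUM). `e_k = (nP (..)/nn φ)^(1/2)` (assume `nn φ > 0`, otherwise `nP Φ = 0`). `k = 0`: ED1, `usm 0 = pr`. Step: `Op (usm (k+1)) Φ = Op us (Op (usm k) Φ)` (VUM) `= Op us (e^(iθ_(kσ)) Φ) + Op us (err_k)`; `‖Op us err‖ ≤ (1 + R^(-1/5)) ‖err‖` (VTS);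
`H = e^(iθ_(kσ))` is `SV` with `w = R^(-1/4)` (EDY, VTN: measurable, invariant; `kσ ≤ τ`), EDC: `Op us (H Φ) = H(ph_σ p) Op us Φ + O(R^(-1/4 + 1/200))`, ED1: `= H(ph_σ p) e^(iθ_σ(p)) Φ + O(R^(-1/140))`, `θ_(kσ)(ph_σ p) + θ_σ(p) = θ_((k+1)σ)(p)` (EDY).
So `e_(k+1) ≤ 2 e_k + 2 R^(-1/140)` and `e_k ≤ 3^(m+1) R^(-1/140) ≤ R^(-1/160)` for `k ≤ m` (Minkowski: `√nP` is a norm, or `nP (x+y) ≤ 2 nP x + 2 nP y` with the constant `4^m`). -/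
def EDM_stmt : Prop := ∃ C : ℝ, 1 ≤ C ∧ ∀ (ch : ℝ → ℝ) (B : ℕ → ℝ) (A : Prm), CH ch → Adm C A → ∃ R0 : ℝ, 1 ≤ R0 ∧ ∀ (R δ : ℝ) (Γ : Subgroup SL(2, ℝ)) (F : Set ℍ) (D : Dyn) (f F' : ℍ → ℝ) (μ : ℝ) (φ : ℍ → ℂ), R0 ≤ R → QU.SurfaceGroup Γ → QU.NiceDom Γ F → OKD Γ δ B D → δ ≤ 1 / 10 → EgT Γ D.U R f F' μ φ →
  ∀ k : ℕ, k ≤ A.m → nP F 2 R (fun p => Op (usm D ch A R k) (QF D.U ch A.z R φ) p - Complex.exp (((thP D f R (k * A.sg R) p : ℝ) : ℂ) * Complex.I) * QF D.U ch A.z R φ p) ≤ R ^ (-(1 / 80) : ℝ) * nn F φ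

/-- **Row EDZ** (from functions on phase space to `L²` of the quotient; short-medium; from KPZ, PSC, VTN, VDM). `(mW R).restrict (DW F) = mP.restrict (PW F 2 R)`. `v` is `FP`, `K` is `KZ` and vanishes for `q ∉ GW 2 R`: `∫_(DW F) perZ K p q v q dmW = ∫ K p q v q dmW = Op K v p` (KPZ second part; PSC). -/
def EDZ_stmt : Prop := ∀ (Γ : Subgroup SL(2, ℝ)) (F : Set ℍ) (R : ℝ), QU.SurfaceGroup Γ → QU.NiceDom Γ F → 1 ≤ R → (mW R).restrict (DW F) = mP.restrict (PW F 2 R) ∧ (mW R).restrict (PW F 1 R) = mP.restrict (PW F 1 R) ∧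
  ∀ (K : SL(2, ℝ) × ℝ → SL(2, ℝ) × ℝ → ℂ) (v : SL(2, ℝ) × ℝ → ℂ), KZ Γ dW K → (∀ p q, K p q ≠ 0 → q ∈ GW 2 R) → FP Γ F v → (∀ p, ∫ q in DW F, perZ Γ K p q * v q ∂mW R = Op K v p) ∧
    ∀ (T : Lp ℂ 2 ((mW R).restrict (DW F)) →L[ℂ] Lp ℂ 2 ((mW R).restrict (DW F))) (Φ : Lp ℂ 2 ((mW R).restrict (DW F))), IsOp ((mW R).restrict (DW F)) (perZ Γ K) T → (Φ : SL(2, ℝ) × ℝ → ℂ) =ᵐ[(mW R).restrict (DW F)] v →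
      ‖T Φ - Φ‖ ^ 2 = nP F 2 R (fun p => Op K v p - v p)

/-- **Row ED3** (final row (I3); short-medium; from EDM, EDW, EDZ, VTN, VUM). `δ0 = 1/10`, `d = 1/100`. `KB = e^(-iθ_τ) usm m`, `τ = m σ`: `Op KB Φ - Φ = e^(-iθ_τ) (Op (usm m) Φ - e^(iθ_τ) Φ)`, modulus of the first factor `1`. `lintegral` against `nP`: `ofReal_integral_eq_lintegral_ofReal` (`FP` functions are bounded, the window in `dG F` has finite measure). -/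
def ED3_stmt : Prop := I3_stmt

/-! ## Time averages -/

/-- **Row EAI** (short-medium; pure). Assume `a ≠ 0`, `b ≠ 0`, `ε > 0`. For `s = r u`, `|u| = 1`, `r = √ε ‖b‖/‖a‖`: `‖Vb‖² + 2 Re (s ⟪Vb, Va⟫) + |s|² ‖Va‖² ≤ (1+ε)² (‖b‖² + 2 Re (s ⟪b, a⟫) + |s|² ‖a‖²)`, `‖Vb‖ ≥ (1-ε) ‖b‖`; choose `u` so that `2 Re (s X) = 2 r |X|`, `X = ⟪Vb, Va⟫ - (1+ε)² ⟪b, a⟫`:
`2 r |X| ≤ 4 ε ‖b‖² + 4 r² ‖a‖²`, so `|X| ≤ 4 √ε ‖a‖ ‖b‖`. `‖Va‖ ≤ (1+ε) ‖a‖ ≤ 2 ‖a‖` (hypothesis for `s → ∞`: `‖Va‖ - ‖Vb‖/|s| ≤ (1+ε)(‖a‖ + ‖b‖/|s|)`), so `|⟪Vb - b, Va⟫| ≤ 2 ε ‖a‖ ‖b‖`, `((1+ε)² - 1) |⟪b, a⟫| ≤ 3 ε ‖a‖ ‖b‖`. Conjugate. -/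
def EAI_stmt : Prop := ∀ (H : Type) [NormedAddCommGroup H] [InnerProductSpace ℂ H] (a b Va Vb : H) (ε : ℝ), 0 ≤ ε → ε ≤ 1 → (∀ s : ℂ, ‖Vb + s • Va‖ ≤ (1 + ε) * ‖b + s • a‖) → ‖Vb - b‖ ≤ ε * ‖b‖ →
  ‖inner ℂ Va b - inner ℂ a b‖ ≤ 10 * Real.sqrt ε * ‖a‖ * ‖b‖

/-- **Row EDI** (invariance under a small step; medium; from EAI, ED1, EDC, EDW, VTS, VTN, VUM). `V v = e^(-iθ_σ) Op us v`: `‖V v‖ ≤ (1 + R^(-1/5)) ‖v‖` (VTS), `‖VΦ - Φ‖ ≤ R^(-1/140) ‖φ‖ ≤ 2 R^(-1/140) ‖Φ‖` (ED1, EDW; norms `√nP` on the window). `∫ H(ph) |Φ|² = ⟨H(ph) Φ, Φ⟩`; replace the first `Φ` by `VΦ`: error `R^(-1/140) nn φ`;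
`H(ph) VΦ = V(HΦ) + O(w R^(1/200))` (EDC); EAI with `a = HΦ`, `b = Φ`, `Va = V(HΦ)`, `ε = 2 R^(-1/140)` in `Lp ℂ 2 (mP.restrict (PW F 2 R))` (`MemLp.toLp`, bounded functions; `V` is linear on `FP` functions): error `15 R^(-1/280) nn φ`. The total is `≤ (w R^(1/200) + R^(-1/300)) nn φ`. -/
def EDI_stmt : Prop := ∃ C : ℝ, 1 ≤ C ∧ ∀ (ch : ℝ → ℝ) (B : ℕ → ℝ) (A : Prm), CH ch → Adm C A → ∃ R0 : ℝ, 1 ≤ R0 ∧ ∀ (R δ w : ℝ) (Γ : Subgroup SL(2, ℝ)) (F : Set ℍ) (D : Dyn) (f F' : ℍ → ℝ) (μ : ℝ) (φ : ℍ → ℂ) (H : SL(2, ℝ) × ℝ → ℝ), R0 ≤ R → QU.SurfaceGroup Γ → QU.NiceDom Γ F → OKD Γ δ B D → δ ≤ 1 / 10 → EgT Γ D.U R f F' μ φ →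
  0 ≤ w → SV Γ A R w (fun p => ((H p : ℝ) : ℂ)) →
    |(∫ p in PW F 2 R, H (D.ph (A.sg R) p) * ‖QF D.U ch A.z R φ p‖ ^ 2 ∂mP) - ∫ p in PW F 2 R, H p * ‖QF D.U ch A.z R φ p‖ ^ 2 ∂mP| ≤ (w * R ^ (1 / 200 : ℝ) + R ^ (-(1 / 300) : ℝ)) * nn F φ

/-- **Row EDS** (short times; medium; from EDT, EDF, EDW, VSA, VFR, VFM, VUB, HFA). `η(p) = h(fl i) ∈ [0, 1]`. (1) `|∫ η |Φ|² - ∫ η |P_s|²| ≤ (‖Φ‖ + ‖P_s‖) ‖P_s - e^(iθ_s) Φ‖ ≤ 4 R^(-1/120) nn φ` (EDT). (2) EDF for `h`: `|∫ η P_s conj P_s - ∫ P_s(hφ) conj P_s(φ)| ≤ L R^(-1/12) · 2 nn φ`.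
(3) duality (VFR) with `v = aF .. φ` (`FP`): `∫ P_s(hφ) conj P_s(φ) = ∫_F h φ conj ψ`, `ψ = sF .. (P_s)`. (4) `nn (ψ - φ) = nn ψ - 2 Re ∫ ψ conj φ + nn φ = nn ψ - 2 nP (P_s) + nn φ` (duality again), `nn ψ ≤ (1 + R^(-1/4))² nP (P_s)`, `nP (P_s) ≤ 4 nn φ` (VSA) and `nP (P_s) ≥ (1 - 4 R^(-1/120)) nn φ` (EDT, EDW): `nn (ψ - φ) ≤ 20 R^(-1/120) nn φ`,
so `|∫ h φ conj ψ - ∫ h |φ|²| ≤ 5 R^(-1/240) nn φ`. The total is `≤ (1 + L) R^(-1/250) nn φ`. -/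
def EDS_stmt : Prop := ∃ C : ℝ, 1 ≤ C ∧ ∀ (ch : ℝ → ℝ) (B : ℕ → ℝ) (A : Prm), CH ch → Adm C A → ∃ R0 : ℝ, 1 ≤ R0 ∧ ∀ (R δ s L : ℝ) (Γ : Subgroup SL(2, ℝ)) (F : Set ℍ) (D : Dyn) (f F' : ℍ → ℝ) (μ : ℝ) (φ : ℍ → ℂ) (h : ℍ → ℝ), R0 ≤ R → QU.SurfaceGroup Γ → QU.NiceDom Γ F → OKD Γ δ B D → δ ≤ 1 / 10 → EgT Γ D.U R f F' μ φ →
  QU.Inv Γ h → (∀ z, 0 ≤ h z ∧ h z ≤ 1) → 0 ≤ L → (∀ z w : ℍ, |h z - h w| ≤ L * dist z w) → 0 ≤ s → s ≤ A.sg R →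
    |(∫ p in PW F 2 R, h (D.fl p.2 s p.1 • I) * ‖QF D.U ch A.z R φ p‖ ^ 2 ∂mP) - ∫ z in F, h z * ‖φ z‖ ^ 2| ≤ (1 + L) * R ^ (-(1 / 250) : ℝ) * nn F φ

/-- **Row EDV** (long times; medium; from EDI, EDS, EDG, EDW, HFA, VTN). `avP D h τ p = m⁻¹ Σ_(k < m) G_k(p)`, `G_k(p) = avP D h σ (D.ph (kσ) p)` (additivity HFA; `τ = mσ`), `G_(k+1) = G_k ∘ ph_σ` on `GW 2 R`. `G_k` is `SV` with `w = L R^(-1/3)` (EDG for the times `≤ τ`; measurable and invariant: `avP D h t` is a multiple of `thP D (h/U) R t`, VTN).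
EDI: `|∫ G_(k+1) |Φ|² - ∫ G_k |Φ|²| ≤ (L R^(-1/3 + 1/200) + R^(-1/300)) nn φ`, so `|∫ avP τ |Φ|² - ∫ G_0 |Φ|²| ≤ m (L + 1) R^(-1/300) nn φ`. `∫ G_0 |Φ|² = σ⁻¹ ∫_0^σ ∫ h(fl s) |Φ|² ds` (Fubini), EDS. `R0` may depend on `L`. (If `G_k` is needed outside the window: `fl` is the identity for `|E| > 1/8`; use `Set.indicator` of `{|E| ≤ 1/8}`.) -/
def EDV_stmt : Prop := ∃ C : ℝ, 1 ≤ C ∧ ∀ (ch : ℝ → ℝ) (B : ℕ → ℝ) (A : Prm) (L : ℝ), CH ch → Adm C A → 0 ≤ L → ∃ R0 : ℝ, 1 ≤ R0 ∧ ∀ (R δ : ℝ) (Γ : Subgroup SL(2, ℝ)) (F : Set ℍ) (D : Dyn) (f F' : ℍ → ℝ) (μ : ℝ) (φ : ℍ → ℂ) (h : ℍ → ℝ), R0 ≤ R → QU.SurfaceGroup Γ → QU.NiceDom Γ F → OKD Γ δ B D → δ ≤ 1 / 10 → EgT Γ D.U R f F' μ φ →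
  QU.Inv Γ h → (∀ z, 0 ≤ h z ∧ h z ≤ 1) → (∀ z w : ℍ, |h z - h w| ≤ L * dist z w) →
    |(∫ p in PW F 2 R, avP D h (A.tu R) p * ‖QF D.U ch A.z R φ p‖ ^ 2 ∂mP) - ∫ z in F, h z * ‖φ z‖ ^ 2| ≤ R ^ (-(1 / 400) : ℝ) * nn F φ

/-- **Row ED8** (final row (I8); short; from EDV, EDZ). `δ0 = 1/10`, `d = 1/400`; `TF`: take `L = max L 0`. -/
def ED8_stmt : Prop := I8_stmt

end

end Pool.Agent.VQ
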