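import Pool.Agent.helper55.VQ.SpecD

/-!
# Project VQ, row ED8 (final row I8)
-/

set_option autoImplicit false

open scoped MatrixGroups ContDiff Topology UpperHalfPlane ComplexConjugate ENNReal
open UpperHalfPlane MeasureTheory Filter Set

namespace Pool.Agent.VQ

open Pool.Agent.RS
open Pool.Agent.RPQ (CEig mean VV IsOp)

theorem ED8_proof (hEDV : EDV_stmt) (hEDZ : EDZ_stmt) : ED8_stmt := by
  intro Γ ch hΓ hch
  obtain ⟨C, hC, h⟩ := hEDV
  refine ⟨1 / 10, C, by norm_num, hC, fun B A hh hA hTF => ?_⟩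
  obtain ⟨L, hL⟩ := hTF.lip
  obtain ⟨R0, hR0, h1⟩ := h ch B A (max L 0) hch hA (le_max_right _ _)
  refine ⟨1 / 400, R0, by norm_num, hR0, ?_⟩
  intro R D F f F' μ φ hR hD hF hE
  rw [(hEDZ Γ F R hΓ hF (hR0.trans hR)).1, abs_sub_comm]
  exact h1 R (1 / 10) Γ F D f F' μ φ hh hR hΓ hF hD le_rfl hE hTF.inv hTF.bd (fun z w =>
    (hL z w).trans (mul_le_mul_of_nonneg_right (le_max_left _ _) dist_nonneg))

end Pool.Agent.VQ
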