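import Pool.Agent.helper55.VQ.SpecD

/-!
# MP_07c750_an, project VQ, row EDL: Lipschitz constants of the potential and of the perturbation
-/

set_option autoImplicit false

open scoped MatrixGroups ContDiff Topology UpperHalfPlane ComplexConjugate ENNReal
open UpperHalfPlane MeasureTheory Filter Set

namespace Pool.Agent.VQ

open Pool.Agent.RS
open Pool.Agent.RPQ (CEig mean VV IsOp)

/-- a point is `g • I` -/
theorem EDL_pt (z : ℍ) : ∃ g : SL(2, ℝ), g • (I : ℍ) = z := MulAction.exists_smul_eq SL(2, ℝ) I z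

theorem EDL_lip {U : ℍ → ℝ} {δ : ℝ} (hδ0 : 0 ≤ δ) (hVCD : VCD_stmt) (hb : ∀ g : SL(2, ℝ), |U (g • I) - 1| ≤ δ)
    (hl : ∀ (g : SL(2, ℝ)) (v : ℂ), ‖v‖ ≤ 1 → |Ug U g v - Ug U g 0| ≤ δ * ‖v‖) (z w : ℍ) : |U z - U w| ≤ 2 * δ * dist z w := by
  obtain ⟨h1, h2, h3, -, -, h4, h5, -⟩ := hVCD
  have hd0 : 0 ≤ dist z w := dist_nonneg
  by_cases hd : dist z w ≤ 1
  · obtain ⟨g, hg⟩ := EDL_pt z
    have hv : ‖cd (g⁻¹ • w)‖ ≤ dist z w := by
      refine (h4 (g⁻¹ • w)).trans (le_of_eq ?_)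
      rw [← hg, ← dist_smul g (g⁻¹ • w) I, smul_inv_smul, dist_comm]
    have e1 : Ug U g (cd (g⁻¹ • w)) = U w := by
      unfold Ug
      rw [(h1 (g⁻¹ • w)).2, smul_inv_smul]
    have e2 : Ug U g 0 = U z := by
      unfold Ug
      have e3 : cdi 0 = I := by
        rw [← h3]
        exact (h1 I).2
      rw [e3, hg]
    have h6 := hl g (cd (g⁻¹ • w)) (hv.trans hd)
    rw [e1, e2, abs_sub_comm] at h6
    have h7 : δ * ‖cd (g⁻¹ • w)‖ ≤ δ * dist z w := mul_le_mul_of_nonneg_left hv hδ0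
    have h8 : 0 ≤ δ * dist z w := by positivity
    linarith
  · rw [not_le] at hd
    obtain ⟨g, hg⟩ := EDL_pt z
    obtain ⟨g', hg'⟩ := EDL_pt w
    have h6 := hb g
    have h7 := hb g'
    rw [hg] at h6
    rw [hg'] at h7
    have h8 : 2 * δ * 1 ≤ 2 * δ * dist z w := mul_le_mul_of_nonneg_left hd.le (by linarith)
    have h9 : |U z - U w| ≤ |U z - 1| + |U w - 1| := by
      have e : U z - U w = (U z - 1) - (U w - 1) := by ring
      rw [e]
      exact abs_sub _ _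
    linarith

theorem EDL_proof (hVUB : VUB_stmt) (hVCD : VCD_stmt) : EDL_stmt := by
  intro Γ δ R B D f hR1 hok hδ hf
  obtain ⟨hPV, hb, -, -, -, hl, -⟩ := hVUB Γ δ B D.U hok.pot hδ
  have hRp : 0 < R := by linarith
  have hδ0 : 0 ≤ δ := (abs_nonneg _).trans (hb 1).1
  have hbd : ∀ z : ℍ, |D.U z| ≤ 11 / 10 := by
    intro z
    obtain ⟨g, hg⟩ := EDL_pt z
    have := (hb g).1
    rw [hg] at this
    have h2 := abs_le.1 this
    rw [abs_le]
    constructor <;> linarith [h2.1, h2.2]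
  have hlip0 := EDL_lip hδ0 hVCD (fun g => (hb g).1) (fun g v hv => (hl g v hv).2)
  have hlip : ∀ z w : ℍ, |D.U z - D.U w| ≤ 1 / 5 * dist z w := fun z w =>
    (hlip0 z w).trans (mul_le_mul_of_nonneg_right (by linarith) dist_nonneg)
  have hκ : R ^ (1 / 100 : ℝ) / R = R ^ (-(99 / 100) : ℝ) := by
    have h1 : R ^ (1 / 100 : ℝ) / R = R ^ (1 / 100 : ℝ) * R ^ (-1 : ℝ) := by rw [Real.rpow_neg_one, div_eq_mul_inv]
    rw [h1, ← Real.rpow_add hRp]
    norm_num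
  have h99 : 0 < R ^ (-(99 / 100) : ℝ) := Real.rpow_pos_of_pos hRp _
  have hfb : ∀ z, |f z| ≤ R ^ (-(99 / 100) : ℝ) := fun z => by rw [← hκ]; exact hf.bd z
  have hfl : ∀ z w, |f z - f w| ≤ R ^ (-(99 / 100) : ℝ) * dist z w := fun z w => by rw [← hκ]; exact hf.lip z w
  refine ⟨hPV.inv, ?_, ?_, ?_, ?_⟩
  · intro z w
    have := hlip z w
    have h2 : 0 ≤ dist z w := dist_nonneg
    linarith
  · exact ⟨hPV.inv.1.mul hf.inv.1, fun γ z => by
      show D.U (γ • z) * f (γ • z) = D.U z * f z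
      rw [hPV.inv.2 γ z, hf.inv.2 γ z]⟩
  · intro z
    rw [abs_mul]
    have h1 : |D.U z| * |f z| ≤ 11 / 10 * R ^ (-(99 / 100) : ℝ) := mul_le_mul (hbd z) (hfb z) (abs_nonneg _) (by norm_num)
    linarith
  · intro z w
    have e1 : D.U z * f z - D.U w * f w = D.U z * (f z - f w) + f w * (D.U z - D.U w) := by ring
    rw [e1]
    have h1 : |D.U z * (f z - f w)| ≤ 11 / 10 * (R ^ (-(99 / 100) : ℝ) * dist z w) := by
      rw [abs_mul]
      exact mul_le_mul (hbd z) (hfl z w) (abs_nonneg _) (by norm_num)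
    have h2 : |f w * (D.U z - D.U w)| ≤ R ^ (-(99 / 100) : ℝ) * (1 / 5 * dist z w) := by
      rw [abs_mul]
      exact mul_le_mul (hfb w) (hlip z w) (abs_nonneg _) h99.le
    have h3 : 0 ≤ R ^ (-(99 / 100) : ℝ) * dist z w := mul_nonneg h99.le dist_nonneg
    refine (abs_add_le _ _).trans ?_
    linarith

end Pool.Agent.VQ
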