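import Pool.Agent.helper55.VQ.EDH
import Pool.Agent.helper55.VQ.EDL
import Pool.Agent.helper55.VQ.EDG
import Pool.Agent.helper55.VQ.EDT
import Pool.Agent.helper55.VQ.ED1
import Pool.Agent.helper91.VQ.EDW
import Pool.Agent.helper40.VQ.EDA
import Pool.Agent.helper17.VQ.EDF
import Pool.Agent.helper65.VQ.EDD
import Pool.Agent.helper2.VQ.EDY
import Pool.Agent.helper38.VQ.EDC
import Pool.Agent.helper92.VQ.EDM
import Pool.Agent.helper22.VQ.EDZ
import Pool.Agent.helper53.VQ.ED3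
import Pool.Agent.helper33.VQ.EAI
import Pool.Agent.helper25.VQ.EDI
import Pool.Agent.helper79.VQ.EDS
import Pool.Agent.helper55.VQ.ED8
import Pool.Agent.helper55.VQ.EDV

/-!
# Project VQ (MP_07c750), block 2d: all rows together
-/

set_option autoImplicit false

open scoped MatrixGroups ContDiff Topology UpperHalfPlane ComplexConjugate ENNReal
open UpperHalfPlane MeasureTheory Filter Set

namespace Pool.Agent.VQ

open Pool.Agent.RS
open Pool.Agent.RPQ (CEig mean VV IsOp)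

/-- the rows of blocks 1, 2a, 2b, 3 and FL which are used -/
structure EDin : Prop where
  VIS : VIS_stmt
  VEL : VEL_stmt
  VQA : VQA_stmt
  VQS : VQS_stmt
  VUB : VUB_stmt
  VCD : VCD_stmt
  VCM : VCM_stmt
  VSH : VSH_stmt
  VDM : VDM_stmt
  VFM : VFM_stmt
  VFR : VFR_stmt
  VFB : VFB_stmt
  VSA : VSA_stmt
  VD0 : VD0_stmt
  VTS : VTS_stmt
  VTN : VTN_stmt
  VUM : VUM_stmt
  VUS : VUS_stmt
  VBO : VBO_stmt
  VRM : VRM_stmt
  VPR : VPR_stmt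
  HFM : HFM_stmt
  HFA : HFA_stmt
  HFG : HFG_stmt
  KPZ : KPZ_stmt
  PSC : PSC_stmt

theorem C_EDL (h : EDin) : EDL_stmt := EDL_proof h.VUB h.VCD
theorem C_EDW (h : EDin) : EDW_stmt := EDW_proof EDH_proof h.VIS h.VEL h.VQA h.VQS h.VUB
theorem C_EDA (h : EDin) : EDA_stmt := EDA_proof h.VSH h.VDM h.VFM h.VFR h.HFM h.VCM h.VCD
theorem C_EDF (h : EDin) : EDF_stmt := EDF_proof (C_EDA h) h.VFM h.VFR h.VCD
theorem C_EDD (h : EDin) : EDD_stmt := EDD_proof h.VRM h.VPR h.VCD h.HFA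
theorem C_EDT (h : EDin) : EDT_stmt := EDT_proof (C_EDD h) (C_EDF h) EDH_proof (C_EDL h) h.VSA h.VFB h.VFM h.VD0 h.VFR h.VUB h.HFA
theorem C_ED1 (h : EDin) : ED1_stmt := ED1_proof h.VTS (C_EDW h) (C_EDT h) EDH_proof h.VSA h.VQA h.VQS h.VFM h.VFR h.VUB h.VUM h.VTN
theorem C_EDG (h : EDin) : EDG_stmt := EDG_proof h.HFG h.VBO
theorem C_EDY (h : EDin) : EDY_stmt := EDY_proof (C_EDG h) (C_EDL h) h.HFA
theorem C_EDC (h : EDin) : EDC_stmt := EDC_proof h.VUS h.VUM h.VSH h.VDM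
theorem C_EDM (h : EDin) : EDM_stmt := EDM_proof (C_ED1 h) (C_EDC h) (C_EDY h) (C_EDW h) h.VTS h.VTN h.VUM h.VDM
theorem C_EDZ (h : EDin) : EDZ_stmt := EDZ_proof h.KPZ h.PSC RS.A_GMG
theorem C_EDI (h : EDin) : EDI_stmt := EDI_proof EAI_proof (C_ED1 h) (C_EDC h) (C_EDW h) h.VTS h.VTN h.VUM
theorem C_EDS (h : EDin) : EDS_stmt := EDS_proof (C_EDT h) (C_EDF h) (C_EDW h) EDH_proof h.VSA h.VFR h.VFM h.VUB h.HFA

/-- **(I3)** -/
theorem C_I3 (h : EDin) : I3_stmt := ED3_proof (C_EDM h) (C_EDW h) (C_EDZ h) h.VTN h.VUM h.VDM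

/-- **(I8)** from the last row EDV -/
theorem C_I8 (h : EDin) (hEDV : EDV_stmt) : I8_stmt := ED8_proof hEDV (C_EDZ h)

theorem C_EDV (h : EDin) : EDV_stmt := EDV_proof (C_EDI h) (C_EDS h) (C_EDG h) (C_EDW h) h.HFA h.VTN h.VUB

/-- **(I8)** -/
theorem C_I8' (h : EDin) : I8_stmt := ED8_proof (C_EDV h) (C_EDZ h)

end Pool.Agent.VQ
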